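import Pool.Agent.Helper63.XR.DefsB

/-!
# Project XR: statements, part B (crossed products)
-/

set_option autoImplicit false

namespace Pool.Agent.Helper63.XR

open Finset Filter Topology MeasureTheory

/-- the sums `∑_n ‖g_n (h^n x)‖` are at most `c` -/
def cs {X : Type} [TopologicalSpace X] (h : X ≃ₜ X) (g : FS X) (c : ℝ) : Prop :=
  ∀ x, (g.sum fun n f => ‖f ((h ^ n : X ≃ₜ X) x)‖) ≤ c

/-- a real function as a complex function -/
noncomputable def cx {X : Type} [TopologicalSpace X] (f : C(X, ℝ)) : C(X, ℂ) :=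
  ⟨fun x => (f x : ℂ), Complex.continuous_ofReal.comp f.continuous⟩

/-! ### the matrices `th` -/

/-- MUL (`th` is approximately multiplicative).

Proof. `th` is additive in `g`, `tw` is additive in both arguments, so all is a finite sum over `(m, n) ∈ supp g × supp g'`, `f = g_m`,
`f' = g'_n`: `th (tw g g') i j = ∑_(m,n) [M ∣ m + n + j - i] f(h^i t) f'(h^(i-m) t)` (`cmp h (-m) f' (h^i t) = f'(h^(i-m) t)`) and
`(th g * th g') i j = ∑_l ∑_(m,n) f(h^i t) [M ∣ m + l - i] f'(h^l t) [M ∣ n + j - l]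
 = ∑_(m,n) f(h^i t) f'(h^(l_m) t) [M ∣ m + n + j - i]`, `l_m ∈ {0..M-1}` the number congruent to `i - m`.  Let `L` bound all `|m|, |n|`, `M > 2 L`.
If `0 ≤ i - m < M` then `l_m = i - m` and the terms agree.  If `i - m < 0`: `l_m = i - m + M`, with `p = i - m ∈ [-L, -1]` the difference is
`f'(h^p t) - f'(h^p (h^M t))`; if `i - m ≥ M`: `l_m = i - m - M =: p ∈ [0, L]`, `f'(h^p (h^M t)) - f'(h^p t)`.  Along `rec h t` these finitely
many differences (`n ∈ supp g'`, `|p| ≤ L`) tend to `0` (continuity at `t`).  For a column `j` each `(m,n)` contributes to one row `i`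
only: column sum of the difference `≤ ∑_(m,n) ‖f‖_at_the_point * (difference)`; `|f| ` is bounded on `X` (compact). -/
def StMul : Prop :=
  ∀ (X : Type) [TopologicalSpace X] [CompactSpace X] (h : X ≃ₜ X) (t : X) (g g' : FS X) (ε : ℝ), 0 < ε →
    ∀ᶠ M in rec h t, ColLe (th h t M (tw h g g') - th h t M g * th h t M g') ε

/-- NRM (`th` is approximately contractive).

Proof. Column `j`: `∑_i ‖∑_n f_n(h^i t) [M ∣ n + j - i]‖ ≤ ∑_n ‖f_n(h^(i_n) t)‖`, `i_n ∈ {0..M-1}` congruent to `n + j`.  Compare with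
`∑_n ‖f_n(h^n (h^j t))‖ ≤ c`: for `M > L ≥ |n|`: `i_n = n + j` or `i_n = n + j ± M` and then the difference is at most
`|f_n(h^p (h^M t)) - f_n(h^p t)|` with `|p| ≤ L`, as in StMul. -/
def StNrm : Prop :=
  ∀ (X : Type) [TopologicalSpace X] [CompactSpace X] (h : X ≃ₜ X) (t : X) (g : FS X) (c ε : ℝ), 0 < ε → cs h g c →
    ∀ᶠ M in rec h t, ColLe (th h t M g) (c + ε)

/-- BLK (block structure of the matrix of the element `gx`).

Proof. Along `rec h t`: `M ≥ 1`, `M ≥ N`, `f(h^M t) ≠ 0` (`f t = 1`, continuity) and the counting inequality.  `S = {v < M : f(h^v t) ≠ 0}`,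
`τ v = f(h^v t)`.  If `M - N < v < M`, `v ∈ S`: `0 < M - v < N`, `f(h^v t) f(h^(M-v) h^v t) = 0`, contradiction; so `v + N ≤ M` for `v ∈ S`, and
`ι (v, i) = v + i`.  Injective: `v + i = v' + i'`, `v < v'`, then `0 < v' - v < N` and `f(h^v t) f(h^(v') t) = 0`.  `0 ∈ S`, `τ 0 = 1`.
`#S ≤ 4 #{j < M : f(h^j t) = 1} = 4 #{s : τ s = 1}`.  Entries: `th (gx) i j = ∑_(a,b<N) x0 a b f(h^(i-a) t) [M ∣ a - b + j - i]`
(`cmp h (-a) f (h^i t) = f(h^(i-a) t)`); if `i < a`: `y = h^(i-a) t`, `0 < a - i < N`, `f(y) f(h^(a-i) y) = f(y) f(t) = 0`, the term is zero;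
if `i ≥ a` the term is nonzero only if `v = i - a ∈ S`, and `M ∣ b + v - j` with `0 ≤ v + b < M`, `0 ≤ j < M` means `j = v + b`.  So
`th (gx) i j = ∑_(v∈S) ∑_(a,b) x0 a b τ v [i = v + a] [j = v + b]`, which is the claim (`ι` injective). -/
def StBlk : Prop :=
  ∀ (X : Type) [TopologicalSpace X] (h : X ≃ₜ X) (t : X) (N : ℕ) (x0 : Matrix (Fin N) (Fin N) ℂ) (f : C(X, ℝ)), 0 < N →
    (∀ x, 0 ≤ f x ∧ f x ≤ 1) → f t = 1 →
    (∀ x, ∀ i : ℕ, 0 < i → i < N → f x * f ((h ^ ((i : ℕ) : ℤ) : X ≃ₜ X) x) = 0) →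
    (∀ᶠ M : ℕ in atTop, ((Finset.range M).filter fun j => f ((h ^ ((j : ℕ) : ℤ) : X ≃ₜ X) t) ≠ 0).card ≤
      4 * ((Finset.range M).filter fun j => f ((h ^ ((j : ℕ) : ℤ) : X ≃ₜ X) t) = 1).card) →
    ∀ᶠ M in rec h t, ∃ (S : Type) (_ : Fintype S) (_ : DecidableEq S) (τ : S → ℝ) (ι : S × Fin N → Fin M),
      Function.Injective ι ∧ (∀ s, 0 ≤ τ s ∧ τ s ≤ 1) ∧ (∃ s, τ s = 1) ∧
      Fintype.card S ≤ 4 * (univ.filter fun s => τ s = 1).card ∧
      (∀ p p', th h t M (gx h x0 (cx f)) (ι p) (ι p') = blk τ x0 p p') ∧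
      (∀ i j, (i ∉ Set.range ι ∨ j ∉ Set.range ι) → th h t M (gx h x0 (cx f)) i j = 0)

/-- XNM (norm of the element `gx`).

Proof. `∑_n ‖gx_n (h^n x)‖ ≤ ∑_(a,b) ‖x0 a b‖ f(h^(-a) h^(a-b) x) = ∑_b f(h^(-b) x) ∑_a ‖x0 a b‖ ≤ r ∑_b f(h^(-b) x) ≤ r`: at most one
`b < N` has `f(h^(-b) x) ≠ 0` (`b < b'`: `y = h^(-b') x`, `f(y) f(h^(b'-b) y) = 0`). -/
def StXnm : Prop :=
  ∀ (X : Type) [TopologicalSpace X] (h : X ≃ₜ X) (N : ℕ) (x0 : Matrix (Fin N) (Fin N) ℂ) (f : C(X, ℝ)) (r : ℝ),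
    0 ≤ r → ColLe x0 r → (∀ x, 0 ≤ f x ∧ f x ≤ 1) →
    (∀ x, ∀ i : ℕ, 0 < i → i < N → f x * f ((h ^ ((i : ℕ) : ℤ) : X ≃ₜ X) x) = 0) →
    cs h (gx h x0 (cx f)) r

/-! ### approximate exchange data -/

/-- NEW (approximate exchange data can be corrected).

Proof. `E = x y`, `D = E² - E` small.  There is an idempotent `e`, commuting with `E`, with `‖e - E‖ ≤ c(K) ‖D‖` (`e = (1 + Q (1 + 4D)^(-1/2)) / 2`,
`Q = 2E - 1`, `Q² = 1 + 4D`, binomial series; or the Newton iteration `E ↦ 3E² - 2E³`, for which `E'² - E' = -D² (3 - 4D)`,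
`E' - E = D (1 - 2E)`).  `u = E e + (1 - e) = 1 + (E - e) e` is invertible (Neumann), commutes with `e, E`, `v = u⁻¹`; `E e = u e`, so
`E (e v) = e`; `y' = y e v`: `x y' = e`.  In the same way `1 - E = (1 - x) z`, `v' = ((1 - E)(1 - e) + e)⁻¹`, `z' = z (1 - e) v'`.  The norms are
bounded in terms of `K`. -/
def StNew : Prop :=
  ∀ K : ℝ, ∃ K' δ : ℝ, 0 < δ ∧ ∀ (R : Type) [NormedRing R] [NormedAlgebra ℂ R] [CompleteSpace R], ‖(1 : R)‖ ≤ 1 →
    ∀ x y z : R, ‖x‖ ≤ K → ‖y‖ ≤ K → ‖z‖ ≤ K → x * y + (1 - x) * z = 1 → ‖(x * y) * (x * y) - x * y‖ ≤ δ →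
    ∃ y' z' : R, ‖y'‖ ≤ K' ∧ ‖z'‖ ≤ K' ∧ (x * y') * (x * y') = x * y' ∧ 1 - x * y' = (1 - x) * z'

/-- NEM (the same for matrices with the column sum norm).

Proof. StNew for the Banach algebra of the continuous linear operators of `l^1(n)` (for instance `PiLp 1 (fun _ : n => ℂ)`), or for the
opposite ring of `Matrix n n ℂ` with `Matrix.linftyOpNormedRing` (norm = maximal row sum) and transposes.  `n` empty: trivial. -/
def StNem : Prop :=
  StNew → ∀ K : ℝ, ∃ K' δ : ℝ, 0 < δ ∧ ∀ (n : Type) [Fintype n] [DecidableEq n] (x y z : Matrix n n ℂ),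
    ColLe x K → ColLe y K → ColLe z K → x * y + (1 - x) * z = 1 → ColLe ((x * y) * (x * y) - x * y) δ →
    ∃ y' z' : Matrix n n ℂ, ColLe y' K' ∧ ColLe z' K' ∧ (x * y') * (x * y') = x * y' ∧ 1 - x * y' = (1 - x) * z'

/-- CMP (compression to the support).

Proof. `Y' = Y.submatrix ι ι`, `Z' = Z.submatrix ι ι`, `X' = X.submatrix ι ι`.  The rows of `X` outside the range of `ι` and the columns outside
vanish, so `(X Y).submatrix ι ι = X' Y'` and the rows of `X Y` outside the range vanish; hence `X' Y'` is idempotent;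
`(1 - X Y).submatrix = 1 - X' Y'` (`ι` injective) `= ((1 - X) Z).submatrix = Z' - X' Z'`.  Column sums of a submatrix are smaller. -/
def StCmp : Prop :=
  ∀ (I J : Type) [Fintype I] [DecidableEq I] [Fintype J] [DecidableEq J] (ι : I → J) (X Y Z : Matrix J J ℂ) (K : ℝ),
    Function.Injective ι → (∀ i j, (i ∉ Set.range ι ∨ j ∉ Set.range ι) → X i j = 0) → ColLe Y K → ColLe Z K →
    (X * Y) * (X * Y) = X * Y → 1 - X * Y = (1 - X) * Z →
    ∃ Y' Z' : Matrix I I ℂ, ColLe Y' K ∧ ColLe Z' K ∧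
      (X.submatrix ι ι * Y') * (X.submatrix ι ι * Y') = X.submatrix ι ι * Y' ∧
      1 - X.submatrix ι ι * Y' = (1 - X.submatrix ι ι) * Z'

/-- EVM (`ev` is additive and multiplicative).

Proof. `U^m j(f) = j(f ∘ h^(-m)) U^m` for all `m ∈ ℤ` (induction from `cov`, also for `U⁻¹`). -/
def StEvm : Prop :=
  ∀ (X : Type) [TopologicalSpace X] [CompactSpace X] (h : X ≃ₜ X) (A : Type) [NormedRing A] [NormedAlgebra ℂ A]
    (j : C(X, ℂ) →ₐ[ℂ] A) (U : Aˣ), IsF1 h A j U →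
    (∀ g g' : FS X, ev j U (g + g') = ev j U g + ev j U g') ∧ (∀ g g' : FS X, ev j U (g - g') = ev j U g - ev j U g') ∧
    (∀ g g' : FS X, ev j U (tw h g g') = ev j U g * ev j U g')

/-! ### representations on `L^1` -/

/-- RA (isometries of `L^1` preserve disjointness).

Proof. `‖f + g‖ + ‖f - g‖ = 2‖f‖ + 2‖g‖` for disjoint `f, g`, so the same holds for `F = T f`, `G = T g`; since pointwise `|F ± G| ≤ |F| + |G|` and
the norms are integrals, `|F + G| = |F| + |G| = |F - G|` a.e., hence `Re (F conj G) = |F G| = - Re (F conj G)` and `F G = 0` a.e. -/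
def StRa : Prop :=
  ∀ (Y : Type) [MeasurableSpace Y] (ν : Measure Y) (T : Lp ℂ 1 ν →L[ℂ] Lp ℂ 1 ν), (∀ f, ‖T f‖ = ‖f‖) →
    ∀ f g : Lp ℂ 1 ν, (∀ᵐ y ∂ν, f y = 0 ∨ g y = 0) → ∀ᵐ y ∂ν, (T f) y = 0 ∨ (T g) y = 0

/-- RB (a contractive representation of `C(X)` on `L^1` is local).

Proof. It suffices to treat real `φ` (linearity).  `u_n = exp(i φ / n)` is unimodular, `π(u_n)` and its inverse `π(conj u_n)` are
contractions, so `π(u_n)` is isometric and by StRa `(π(u_n) f)(π(u_n) g) = 0` a.e.  `n (π(u_n) - 1) f → i π(φ) f` in `L^1` (norm convergence of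
`n (u_n - 1)` to `i φ` in `C(X)`), the same for `g`; along a subsequence all convergences are a.e.  From
`0 = n ((π(u_n) f)(π(u_n) g) - f g) = (n (π(u_n) - 1) f) (π(u_n) g) + f (n (π(u_n) - 1) g)` one gets `π(φ) f * g + f * π(φ) g = 0` a.e.; multiply by
`f`: `f² π(φ) g = 0` since `f g = 0`. -/
def StRb : Prop :=
  StRa → ∀ (X : Type) [TopologicalSpace X] [CompactSpace X] (ρ : Rep X) (φ : C(X, ℂ)) (f g : Lp ℂ 1 ρ.ν),
    (∀ᵐ y ∂ρ.ν, f y = 0 ∨ g y = 0) → ∀ᵐ y ∂ρ.ν, f y = 0 ∨ (ρ.π φ g) y = 0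

/-- RC (regularity).

Proof. Locality: for a measurable set `E`: `1_E π(φ) ξ = π(φ) (1_E ξ)` a.e. (`π(φ)(1_(E^c) ξ)` vanishes a.e. on `E`: StRb with `f` an integrable
function with `f ≠ 0` exactly on `E`, which exists as `ν` is sigma-finite; `g = 1_(E^c) ξ`).  Put `η_n = π(g_n) ξ`, `ε > 0`; let `Φ` be a finite set of
complex numbers of modulus one with `max_(c∈Φ) Re (c z) ≥ (1 - ε)|z|` for all `z ∈ ℂ`.  For `c = (c_n) ∈ Φ^s` there is a finite measurable partition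
`(E_c)` of `Y` such that on `E_c`: `Re (c_n η_n) ≥ (1 - ε)|η_n|` for all `n`.  Then
`(1 - ε) ∫_(E_c) ∑|η_n| ≤ ∫_(E_c) |∑ c_n η_n| = ‖1_(E_c) π(∑ c_n g_n) ξ‖ = ‖π(∑ c_n g_n)(1_(E_c) ξ)‖ ≤ c ‖1_(E_c) ξ‖`, since
`‖∑ c_n g_n‖ ≤ sup ∑|g_n| ≤ c`.  Sum over `c` and let `ε → 0`. -/
def StRc : Prop :=
  StRb → StRa → ∀ (X : Type) [TopologicalSpace X] [CompactSpace X] (ρ : Rep X) (s : Finset ℤ) (g : ℤ → C(X, ℂ)) (c : ℝ)
    (ξ : Lp ℂ 1 ρ.ν), 0 ≤ c → (∀ x, ∑ n ∈ s, ‖g n x‖ ≤ c) → ∑ n ∈ s, ‖ρ.π (g n) ξ‖ ≤ c * ‖ξ‖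

/-- NUB (upper bound of the norm).

Proof. `c` belongs to the set: `∑_m ‖act m‖ ≤ ∑_m ∑_(n∈supp g) ‖π(g_n ∘ h^m) ξ(m-n)‖ = ∑_(m') ∑_n ‖π(g_n ∘ h^(m'+n)) ξ(m')‖ ≤ ∑_(m') c ‖ξ(m')‖`
by StRc, as `∑_n ‖g_n(h^(m'+n) x)‖ = ∑_n ‖g_n(h^n (h^(m') x))‖ ≤ c`.  (All sums are finite.) -/
def StNub : Prop :=
  StRc → StRb → StRa → ∀ (X : Type) [TopologicalSpace X] [CompactSpace X] (h : X ≃ₜ X) (g : FS X) (c : ℝ), 0 ≤ c →
    cs h g c → nrm h g ≤ c

/-- NLB (lower bound of the norm).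

Proof. The set in `nrm` is not empty (`c = ∑ ‖g_n‖`); if `c` is in the set, take the representation on `L^1` of a one point space (Dirac
measure on `Unit`) `π(f) = f(x)` and `ξ = single 0 1`: `act m = g_m(h^m x) * 1`, so `∑_m ‖g_m(h^m x)‖ ≤ c`. -/
def StNlb : Prop :=
  ∀ (X : Type) [TopologicalSpace X] [CompactSpace X] (h : X ≃ₜ X) (g : FS X), cs h g (nrm h g) ∧ 0 ≤ nrm h g

/-! ### the geometric input -/

/-- REC (recurrence).

Proof. Let `ω` be the set of the cluster points of `h^M t`, `M → ∞` (`M : ℕ`): closed, nonempty (compactness), invariant under `h` and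
`h⁻¹`.  It contains the (two-sided) orbit of each of its points, so it is dense, `ω = X ∋ t`. -/
def StRec : Prop :=
  ∀ (X : Type) [MetricSpace X] [CompactSpace X] (h : X ≃ₜ X), (∀ x, Dense (Set.range fun n : ℤ => (h ^ n : X ≃ₜ X) x)) →
    ∀ t, (rec h t).NeBot

/-- GCA (Cantor systems).

Proof. `X` is not empty.  Take any `t`.  `h^i t ≠ t` for `i > 0` (otherwise the orbit of `t` is finite and dense, so `X` is finite).  By
continuity and total disconnectedness there is a clopen `U ∋ t` with `U ∩ h^(-i) U = ∅` for `0 < i < N`.  `f` = the indicator of `U`;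
`{f ≠ 0} = {f = 1}`; StRec. -/
def StGca : Prop :=
  StRec → ∀ (X : Type) [MetricSpace X] [CompactSpace X] [TotallyDisconnectedSpace X] [Infinite X] (h : X ≃ₜ X),
    (∀ x, Dense (Set.range fun n : ℤ => (h ^ n : X ≃ₜ X) x)) → Geo h

/-- GAD (irrational rotations of `ℝ/ℤ`).

Proof. `t = 0`, `‖x‖` = distance to the nearest integer, `(h^n) x = x + n θ`.  Orbits are dense (Mathlib: `AddCircle`, irrational), so StRec.
Let `0 < σ < 1/4` with `2 σ ≤ ‖i θ‖` for `0 < i < N`; `f x = min 1 (max 0 (2 - 2‖x‖/σ))`: `f = 1` iff `‖x‖ ≤ σ/2`, `f ≠ 0` iff `‖x‖ < σ`.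
Disjointness: `f(x) f(x + iθ) ≠ 0` implies `‖iθ‖ < 2σ`.  Density of the forward orbit: a natural number `n` with `n θ = β` mod 1, `σ/2 < β < σ`.
If `σ/2 < x < σ` then `|x - β| < σ/2`, if `-σ < x < -σ/2` then `|x + β| < σ/2`.  So a `j < M` with `f(jθ) ≠ 0` has `f = 1` at `jθ`, `(j-n)θ` or
`(j+n)θ`: `#{j < M : f ≠ 0} ≤ 3 P + 2 n`, `P = #{j < M : f(jθ) = 1}`, and `P → ∞` (the forward orbit enters the open set `‖x‖ < σ/2`
infinitely often), so `≤ 4 P` for large `M`. -/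
def StGad : Prop :=
  StRec → ∀ θ : ℝ, Irrational θ → Geo (Homeomorph.addLeft ((θ : ℝ) : AddCircle (1 : ℝ)))

/-- GCJ (conjugacy).

Proof. `(φ⁻¹ h φ)^n = φ⁻¹ h^n φ`; transport `t` and `f`. -/
def StGcj : Prop :=
  ∀ (X Y : Type) [TopologicalSpace X] [TopologicalSpace Y] (φ : X ≃ₜ Y) (h : X ≃ₜ X), Geo h →
    Geo ((φ.symm.trans h).trans φ)

/-- GCI (irrational rotations of the unit circle).

Proof. StGad and StGcj with `AddCircle.homeomorphCircle'` (or `AddCircle.homeomorphCircle`), `Circle.exp (2 π x)`: the conjugate of `x ↦ θ + x` is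
`z ↦ Circle.exp (2 π θ) * z`. -/
def StGci : Prop :=
  StGad → StGcj → StRec → ∀ θ : ℝ, Irrational θ → Geo (Homeomorph.mulLeft (Circle.exp (2 * Real.pi * θ)))

end Pool.Agent.Helper63.XR
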