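import Pool.Agent.Helper63.XR.Defs

/-!
# Project XR: statements, part A (the finite theorem)
-/

set_option autoImplicit false

namespace Pool.Agent.Helper63.XR

open Finset

/-! ### linear algebra -/

/-- TRH (trace, rank and Hilbert-Schmidt norm).

Proof. Let `Q` be the matrix of the orthogonal projection of `ℂ^n` (Euclidean) onto the range of `M`; then `Q M = M`,
`Q = Q^*`, `Q² = Q`, `∑_ij |Q_ij|² = tr (Q^* Q) = tr Q = rank M`.  Hence `tr M = tr (Q M) = ∑_ij Q_ij M_ji` and Cauchy-Schwarz gives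
`|tr M|² ≤ ∑|Q_ij|² ∑|M_ij|² = rank M * ∑ |M_ij|²`.  (Variant without projection: take an orthonormal basis `b_1, ..., b_n` of `ℂ^n`
whose first `r = rank M` vectors span the range of `M`; `tr M = ∑_k ⟨b_k, M b_k⟩` and the terms with `k > r` vanish;
Cauchy-Schwarz for the `r` terms and `∑_k |M b_k|² = ∑_ij |M_ij|²`.) -/
def StTrh : Prop :=
  ∀ (n : Type) [Fintype n] [DecidableEq n] (M : Matrix n n ℂ),
    ‖M.trace‖ ^ 2 ≤ (M.rank : ℝ) * ∑ i, ∑ j, ‖M i j‖ ^ 2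

/-- RKT (rank of an idempotent is its trace; bound of the rank by the diagonal).

Proof. `LinearMap.IsProj.trace` (the trace of a projection is the dimension of its range) for `Matrix.toLin'` or `mulVecLin`. -/
def StRkt : Prop :=
  ∀ (n : Type) [Fintype n] [DecidableEq n] (E : Matrix n n ℂ), E * E = E →
    (E.rank : ℝ) ≤ ∑ i, ‖E i i‖

/-- CAP (few functionals are captured).

Proof. `T` empty: trivial.  Let `c_t`, `|c_t| = 1`, be such that `c_t * pr (ψ t) (f t) = ‖pr (ψ t) (f t)‖`, and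
`M t t' = c_{t'} pr (ψ t) (f t')`, a `T × T` matrix.  `M = Ψ * F` with `Ψ t j = ψ t j`, `F j t' = c_{t'} f t' j`, and `F = E * F`, so
`rank M ≤ rank F ≤ rank E ≤ ρ`.  The trace of `M` is real and `≥ ε |T|`; `∑_{t,t'} ‖M t t'‖² ≤ |T| L²`.  By StTrh
`ε² |T|² ≤ ρ |T| L²`. -/
def StCap : Prop :=
  StTrh → ∀ (J T : Type) [Fintype J] [DecidableEq J] [Fintype T] [DecidableEq T] (E : Matrix J J ℂ) (ρ L ε : ℝ)
    (ψ : T → J → ℝ) (f : T → J → ℂ), (E.rank : ℝ) ≤ ρ → 0 < ε → (∀ t, E.mulVec (f t) = f t) →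
    (∀ t, ε ≤ ‖pr (ψ t) (f t)‖) → (∀ t', ∑ t, ‖pr (ψ t) (f t')‖ ^ 2 ≤ L ^ 2) →
    (Fintype.card T : ℝ) * ε ^ 2 ≤ ρ * L ^ 2

/-! ### combinatorics of one step -/

/-- BON (Bonferroni: few significant vertices).

Proof. For `T2 ⊆ T1`: `∑_(t∈T2) F t ≤ ∑_(t∈T2) ∑_(u∈G t) y u = ∑_u N(u) y u`, `N(u) = #{t ∈ T2 : u ∈ G t}`, and `N ≤ 1 + #{(t,t') : t ≠ t' ∈ T2,
u ∈ G t ∩ G t'}` (true for every natural number `N`: `N ≤ 1 + N(N-1)`).  So the sum is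
`≤ ∑_u y u + ∑_(t≠t'∈T2) ∑_(u ∈ G t ∩ G t') y u ≤ κ + |T2|² δ`.  If `T1` had `≥ s0` elements take `T2 ⊆ T1` with `s0` elements:
`s0 τ ≤ κ + s0² δ ≤ κ + 1`, a contradiction.  So `|T1| < s0`; take `T2 = T1`: `|T1|² δ ≤ s0² δ ≤ 1` (`δ ≥ 0` if some `G t` is
nonempty; otherwise the sums over `G t` vanish; if `δ < 0` then all `G t` with `t ∈ T1` are empty). -/
def StBon : Prop :=
  ∀ (U T : Type) [Fintype U] [DecidableEq U] [DecidableEq T] (y : U → ℝ) (G : T → Finset U) (κ δ τ : ℝ) (s0 : ℕ)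
    (T1 : Finset T) (F : T → ℝ), (∀ u, 0 ≤ y u) → ∑ u, y u ≤ κ → (∀ t ∈ T1, ∀ u ∈ G t, y u ≤ δ) →
    (∀ t ∈ T1, ∀ t' ∈ T1, t ≠ t' → (G t ∩ G t').card ≤ 1) → (∀ t ∈ T1, τ ≤ F t) →
    (∀ t ∈ T1, F t ≤ ∑ u ∈ G t, y u) → κ + 1 < s0 * τ → (s0 : ℝ) ^ 2 * δ ≤ 1 → 0 ≤ δ →
    T1.card < s0 ∧ ∑ t ∈ T1, F t ≤ κ + 1

/-- DEC (decomposition step).

Proof. `‖y1 u‖ ≤ ‖y1 u + y2 u‖ + ‖y2 u‖ ≤ ε + ζ ≤ 2 ε` on `G t` (`‖y2 u‖² ≤ ζ²`).  Put `p t = w t ∑_(u∈G t) y1 u`,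
`n t = w t ∑_(u∈G t) y2 u`, `T1 = {t : τ ≤ ‖p t‖}`, `y1' = p` on `T1` and `0` elsewhere, `y2' = p + n - y1'`.
StBon with `F t = ‖p t‖ ≤ ∑_(u∈G t) ‖y1 u‖`, `δ = 2 ε`: `∑ ‖y1'‖ ≤ κ + 1`.  Off `T1`: `‖p t‖² ≤ τ ‖p t‖` and
`∑_t ‖p t‖ ≤ ∑_t ∑_(u∈G t) ‖y1 u‖ ≤ a1 κ`, so `∑_(t∉T1) ‖p t‖² ≤ τ a1 κ ≤ (z/2)²`.  Cauchy-Schwarz:
`‖n t‖² ≤ |G t| ∑_(u∈G t) ‖y2 u‖²`, `∑_t ‖n t‖² ≤ a2 a1 ζ² ≤ (z/2)²`.  Finally `‖p + n‖² ≤ 2 ‖p‖² + 2 ‖n‖²` pointwise gives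
`∑ ‖y2'‖² ≤ 2 (z/2)² + 2 (z/2)² = z²`. -/
def StDec : Prop :=
  StBon → ∀ (U T : Type) [Fintype U] [DecidableEq U] [Fintype T] [DecidableEq T] (G : T → Finset U) (w : T → ℝ)
    (y1 y2 : U → ℂ) (κ ζ ε τ z : ℝ) (s0 a1 a2 : ℕ), (∀ t, 0 ≤ w t ∧ w t ≤ 1) →
    (∀ t t', t ≠ t' → (G t ∩ G t').card ≤ 1) → (∀ u, (univ.filter fun t => u ∈ G t).card ≤ a1) →
    (∀ t, (G t).card ≤ a2) → ∑ u, ‖y1 u‖ ≤ κ → ∑ u, ‖y2 u‖ ^ 2 ≤ ζ ^ 2 → 0 ≤ ζ → ζ ≤ ε →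
    (∀ t, ∀ u ∈ G t, ‖y1 u + y2 u‖ ≤ ε) → 0 < τ → κ + 1 < s0 * τ → (s0 : ℝ) ^ 2 * (2 * ε) ≤ 1 →
    τ * a1 * κ ≤ (z / 2) ^ 2 → (a1 : ℝ) * a2 * ζ ^ 2 ≤ (z / 2) ^ 2 →
    ∃ y1' y2' : T → ℂ, (∀ t, (w t : ℂ) * ∑ u ∈ G t, (y1 u + y2 u) = y1' t + y2' t) ∧
      ∑ t, ‖y1' t‖ ≤ κ + 1 ∧ ∑ t, ‖y2' t‖ ^ 2 ≤ z ^ 2

/-! ### parameters and graphs -/

/-- the conditions on the parameters; `θ = (lam - 1) / lam` -/
structure Par (C K lam : ℝ) (k : ℕ) (a : ℕ → ℕ) (eps tau z : ℕ → ℝ) (s0 : ℕ → ℕ) : Prop where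
  a_pos : ∀ l, 1 ≤ a l
  eps_pos : ∀ l, l ≤ k → 0 < eps l ∧ eps l ≤ 1
  z_pos : ∀ l, l ≤ k → 0 < z l ∧ z l ≤ eps l
  tau_pos : ∀ l, l < k → 0 < tau l
  eps0 : eps 0 * (C ^ 2 * K) ≤ (C - lam) / 4
  flat : ∀ l, 1 ≤ l → l ≤ k → C * K / a l ≤ eps l
  sig : ∀ l, l < k → ((k - (l + 1) : ℕ) + 1 : ℝ) + 1 < s0 l * tau l
  sig2 : ∀ l, l < k → (s0 l : ℝ) ^ 2 * (2 * eps (l + 1)) ≤ 1
  ins : ∀ l, l < k → tau l * a l * ((k - (l + 1) : ℕ) + 1 : ℝ) ≤ (z l / 2) ^ 2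
  noi : ∀ l, l < k → (a l : ℝ) * a (l + 1) * z (l + 1) ^ 2 ≤ (z l / 2) ^ 2
  cap : ∀ l, l < k → (k + 1 : ℝ) * (4 * k * C * K * ((k : ℝ) + 2) ^ 2) ≤
    (((lam - 1) / lam) ^ l / 2 ^ (l + 2)) * eps l ^ 2 * a l
  err : ∀ l, l < k → lam * (lam / C) ^ l * ((∏ i ∈ Finset.Icc 1 l, a i : ℕ) : ℝ) * (4 * K) ≤ a (l + 1)
  last : (lam / C) ^ k * (4 * K) ≤ 1

/-- PAR (existence of the parameters).

Proof. Choose `k ≥ 1` with the last condition (`lam / C < 1`).  Put `κ = k + 2`.  Define by recursion on `l` the numbers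
`a l, eps l, z l, tau l, s0 l` (and the product `D l = ∏_(i=1)^l a i`): `eps 0 = min 1 ((C - lam)/(4 C² K))`, `a 0` so large that `cap`
holds, `z 0 = eps 0`, `tau 0 = (z 0 / 2)² / (a 0 κ)`, `s0 0` a natural number with `κ + 1 < s0 0 * tau 0`; then, given the numbers for
`l`: `eps (l+1) = 1 / (2 (s0 l)²)` (`s0 l ≥ 1`), `a (l+1)` a natural number so large that `flat`, `cap`, `err` hold for it
(each of the three conditions says `a (l+1) ≥` an explicit number depending on the earlier numbers),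
`z (l+1) = min (eps (l+1)) (z l / (2 √(a l a (l+1))))`, `tau (l+1) = (z (l+1) / 2)² / (a (l+1) κ)`, `s0 (l+1)` with `κ + 1 < s0 (l+1) tau (l+1)`.
(`(k - (l+1)) + 1 ≤ k + 1 ≤ κ`.)  All the conditions hold for all `l`, not only for `l ≤ k`. -/
def StPar : Prop :=
  ∀ C K lam : ℝ, 1 < lam → lam < C → 1 ≤ K → ∃ (k : ℕ) (a : ℕ → ℕ) (eps tau z : ℕ → ℝ) (s0 : ℕ → ℕ),
    1 ≤ k ∧ Par C K lam k a eps tau z s0

/-- GRA (existence of the graph).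

Proof. Let `q` be a prime larger than all `a l`, `l ≤ k`, `G = Fin k → ZMod q`, `b = |G| = q^k`, and `P = Σ l : Fin (k+1), Fin (a l) × G`
(or any equivalent finite type).  The children of `(l, i, s)`, `l < k`, are the `(l+1, i', s + (i+1)(i'+1) e_l)`, `i' < a (l+1)`
(`e_l` = the unit vector number `l`; `(i+1)(i'+1)` in `ZMod q`; `i + 1` and `i' + 1` are nonzero in `ZMod q` and different for different
indices).  Distinct `i'` give distinct children, so `card_ch`.  The parents of `(l+1, i', r)` are the `(l, i, r - (i+1)(i'+1) e_l)`,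
`i < a l`: `card_par`.  `share`: a common child `(i', r)` of `(i, s) ≠ (j, t)` of the same layer gives `s - t = (j - i)(i'+1) e_l`;
if `i = j` then `s = t`; otherwise `j - i` is invertible and `i'` is determined, then also `r`.  (Vertices of different layers share
no child.)  `tree`: a descendant `v` of generation `n` of `t = (l, i_0, s)` is given by indices `i_1, ..., i_n`, `v = (l+n, i_n, s + ∑_m
(i_(m-1)+1)(i_m+1) e_(l+m-1))`; from `v` and `t` one reads off the products `(i_(m-1)+1)(i_m+1)` (different coordinates), hence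
`i_1`, then `i_2`, ...; so every descendant of generation `n + 1` has exactly one parent among the descendants of generation `n`
(for instance prove by induction on `n`: `u` in generation `n` of `t` is determined by the coordinates `l, ..., l+n-1` of `u.s`).
`P` may be transported to any type; `b ≥ 1`. -/
def StGra : Prop :=
  ∀ (k : ℕ) (a : ℕ → ℕ), (∀ l, 1 ≤ a l) → ∃ (b : ℕ) (P : Type) (_ : Fintype P) (_ : DecidableEq P), 1 ≤ b ∧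
    Nonempty (LG P k b a)

/-- GEN (descendants).

Proof. Induction on `n`, `card_ch`, `ch_lev`, `tree`.  (1) `gen (n+1)` from the other side: induction.  (2) level.  (3) the size of
a union is at most the sum of the sizes.  (4) if `v` is in generation `n` of the two children `c ≠ c'` of `t`: induction on `n`;
`n = 0`: `v = c = c'`.  `n + 1`: `v ∈ ch u`, `v ∈ ch u'` with `u ∈ gen c n`, `u' ∈ gen c' n`, both in `gen t (n+1)`; `u ≠ u'` by the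
induction hypothesis; contradiction to `tree`.  (5) `u` not in `gen t n`: the children of `u` in `gen t (n+1)` are contained in
the union of the `ch u ∩ ch u'`, `u' ∈ gen t n`, each of size at most one. -/
def StGen : Prop :=
  ∀ (P : Type) [Fintype P] [DecidableEq P] (k b : ℕ) (a : ℕ → ℕ) (g : LG P k b a),
    (∀ t n, gen g.ch t (n + 1) = (g.ch t).biUnion fun c => gen g.ch c n) ∧
    (∀ t n, ∀ u ∈ gen g.ch t n, g.lev u = g.lev t + n) ∧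
    (∀ t n, g.lev t = 0 → (gen g.ch t n).card ≤ ∏ i ∈ Finset.Icc 1 n, a i) ∧
    (∀ t, ∀ c ∈ g.ch t, ∀ c' ∈ g.ch t, c ≠ c' → ∀ n, Disjoint (gen g.ch c n) (gen g.ch c' n)) ∧
    (∀ t n u, u ∉ gen g.ch t n → (g.ch u ∩ gen g.ch t (n + 1)).card ≤ (gen g.ch t n).card)

/-- ALC (number of vertices of a layer, and blocks).

Proof. `Al g t l` is the product of `{s : t s = 1}` and the layer `l`. -/
def StAlc : Prop :=
  ∀ (P : Type) [Fintype P] [DecidableEq P] (k b : ℕ) (a : ℕ → ℕ) (g : LG P k b a) (S : Type) [Fintype S]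
    [DecidableEq S] (t : S → ℝ), ∀ l, l ≤ k →
    (Al g t l).card = (univ.filter fun s => t s = 1).card * (a l * b)

/-! ### the idempotent -/

/-- EEE (flatness of the range of `E` and its rank).

Proof. `x = blk t (xmat g C)`, `E = x y`, `E² = E`.  For every vector `v`: `(x v) (s, c) = ∑_(u : c ∈ ch u) t s (C / a (lev c)) v (s, u)`,
so `‖(x v)(s, c)‖ ≤ (C / a (lev c)) n1 v`, and `= 0` if `lev c = 0` (a child has level at least one).  If `E f = f` then `f = x (y f)` and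
`n1 (y f) ≤ K n1 f`: (1).  (2): `‖E j j‖ = ‖(x (y e_j)) j‖ ≤ C K / a (lev j.2)` if `lev ≥ 1` and `0` if `lev = 0`; sum: layer `l ≥ 1` gives
at most `|S| a l b C K / a l = |S| b C K`, total `|S| k b C K`; StRkt.  (3): `n1 (E e_j) ≤ C K`, the column sums of `x` are at most `C`
(`a (l+1)` children with entry at most `C / a (l+1)`, no children in layer `k`). -/
def StEee : Prop :=
  StRkt → ∀ (P : Type) [Fintype P] [DecidableEq P] (k b : ℕ) (a : ℕ → ℕ) (g : LG P k b a) (S : Type) [Fintype S]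
    [DecidableEq S] (t : S → ℝ) (C K : ℝ) (Y : Matrix (S × P) (S × P) ℂ), (∀ l, 1 ≤ a l) → 0 < C → 0 ≤ K →
    (∀ s, 0 ≤ t s ∧ t s ≤ 1) → ColLe Y K →
    (blk t (xmat g C) * Y) * (blk t (xmat g C) * Y) = blk t (xmat g C) * Y →
    (∀ f : S × P → ℂ, (blk t (xmat g C) * Y).mulVec f = f → ∀ i : S × P,
      ‖f i‖ ≤ (if g.lev i.2 = 0 then 0 else C * K / a (g.lev i.2)) * n1 f) ∧
    ((blk t (xmat g C) * Y).rank : ℝ) ≤ Fintype.card S * k * b * C * K ∧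
    ColLe (blk t (xmat g C)) C ∧ ColLe (blk t (xmat g C) * Y) (C * K)

/-! ### the induction -/

/-- BAS (the last layer, and the functional number `l` of the layer `l`).

Proof. `Bad = ∅`, `ψ q j i = 1` if `q = k` and `i = j`, else `0`.  P3 is empty, P4: `q = k`, `pr (ψ k j) f = f j`, flatness with
`lev j.2 = k ≥ 1`; P5: `y1 = f`, `y2 = 0`. -/
def StBas : Prop :=
  ∀ (P : Type) [Fintype P] [DecidableEq P] (k b : ℕ) (a : ℕ → ℕ) (g : LG P k b a) (S : Type) [Fintype S]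
    [DecidableEq S] (t : S → ℝ) (lam : ℝ) (E : Matrix (S × P) (S × P) ℂ) (δ ε κ z β : ℝ), 1 ≤ k → δ ≤ ε → 1 ≤ κ →
    0 ≤ β → (∀ f : S × P → ℂ, E.mulVec f = f → ∀ i : S × P, g.lev i.2 = k → ‖f i‖ ≤ δ * n1 f) →
    Inv g t lam E ε κ z β k

/-- SP1 (P1 and P2 for the new functionals).

Proof. P2: definition of `psiN`.  P1: `q = l`: `i = j`, `gen _ 0 = {j.2}`.  `q > l`: `ψ q u i ≠ 0` for some `u ∈ Gs g Bad j`, `u = (j.1, c)`,
`c ∈ ch j.2`, `u ∈ Al g t (l+1)`: `i.1 = j.1`, `i.2 ∈ gen c (q - l - 1) ⊆ gen j.2 (q - l)`; by StGen (4) at most one `u` contributes,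
so the sum is at most one; `0 ≤ wt ≤ 1` (`A / (lam n) ≤ 1` if `A ≤ lam n`; if `lam n = 0` the quotient is `0`). -/
def StSp1 : Prop :=
  StGen → ∀ (P : Type) [Fintype P] [DecidableEq P] (k b : ℕ) (a : ℕ → ℕ) (g : LG P k b a) (S : Type) [Fintype S]
    [DecidableEq S] (t : S → ℝ) (lam : ℝ) (Bad : Finset (S × P)) (l : ℕ) (ψ : ℕ → (S × P) → (S × P) → ℝ), 0 < lam →
    l < k → P1 g t (l + 1) ψ → P1 g t l (psiN g lam Bad l ψ) ∧ P2 g t l (psiN g lam Bad l ψ)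

/-- SP3 (the telescoping identity for the new functionals).

Proof. Let `j = (s, t') ∈ Al g t l`, not in `Few`, `G = Gs g Bad j`, `n = |G|`, `a (l+1) ≤ lam n` (so `n ≥ 1` since `a (l+1) ≥ 1`),
`w = a (l+1) / (lam n)`.  `q = l`: `u = t'`, `∑_(c∈ch t') psiN (l+1) j (s,c) = w ∑_(c∈ch t') ∑_(u'∈G) [(s,c) = u'] = w n`
(P2 for `ψ`), times `lam` gives `a (l+1)`.  `q > l`: `u ∈ gen t' (q-l)`, so `u ∈ gen c0 (q-l-1)` for a child `c0` of `t'`.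
`∑_(c∈ch u) psiN (q+1) j (s,c) = w ∑_(u'∈G) ∑_(c∈ch u) ψ (q+1) u' (s,c)`.  For `u' = (s,c')` with `u ∈ gen c' (q-l-1)` use P3 for `ψ`
(`u' ∉ Bad`).  For the other `u' = (s,c')`: `ψ q u' (s,u) = 0` by P1, and `ψ (q+1) u' (s,c) = 0` for every `c ∈ ch u`: otherwise
`c ∈ gen c' (q-l)`, i.e. `c ∈ ch u''` with `u'' ∈ gen c' (q-l-1) ⊆ gen t' (q-l)`, `u'' ≠ u`, contradiction to `tree`.  So both sides are
`w` times `a (q+1) ∑_(u'∈G) ψ q u' (s,u)`. -/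
def StSp3 : Prop :=
  StGen → ∀ (P : Type) [Fintype P] [DecidableEq P] (k b : ℕ) (a : ℕ → ℕ) (g : LG P k b a) (S : Type) [Fintype S]
    [DecidableEq S] (t : S → ℝ) (lam : ℝ) (Bad : Finset (S × P)) (l : ℕ) (ψ : ℕ → (S × P) → (S × P) → ℝ), 0 < lam →
    (∀ l, 1 ≤ a l) → l < k → P1 g t (l + 1) ψ → P2 g t (l + 1) ψ → P3 g t lam Bad (l + 1) ψ →
    P3 g t lam (Few g t lam Bad l) l (psiN g lam Bad l ψ)

/-- SP5 (the decomposition for the new functionals).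

Proof. `q = l`: `pr (psiN l j) f = f j`; `y1 = f`, `y2 = 0`.  `q > l`: `pr (psiN q j) f = w_j ∑_(u∈Gs g Bad j) pr (ψ q u) f`; apply StDec with
`U` = the subtype of `Al g t (l+1)`, `T` = the subtype of `Al g t l`, `G j` = `Gs g Bad j` (contained in `Al g t (l+1)`),
`w j = wt ...` (between `0` and `1`), the `y1, y2` of P5 for `ψ`; on `G j` the sum `y1 + y2 = pr (ψ q u) f` has norm `≤ ε n1 f ≤ ε` by P4
for `ψ`; two distinct `G j` share at most one element (`share`; different blocks are disjoint), `u` is in at most `a l` of the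
`G j` (`card_par`, `lev u.2 - 1 = l`), `|G j| ≤ a (l+1)`.  (`κ ≥ 0`, `z ≥ 0`.) -/
def StSp5 : Prop :=
  StDec → StBon → ∀ (P : Type) [Fintype P] [DecidableEq P] (k b : ℕ) (a : ℕ → ℕ) (g : LG P k b a) (S : Type)
    [Fintype S] [DecidableEq S] (t : S → ℝ) (lam : ℝ) (E : Matrix (S × P) (S × P) ℂ) (Bad : Finset (S × P)) (l : ℕ)
    (ψ : ℕ → (S × P) → (S × P) → ℝ) (κ ζ ε τ z : ℝ) (s0 : ℕ), 0 < lam → l < k → P4 g t E ε Bad (l + 1) ψ →
    P5 g t E κ ζ (l + 1) ψ → 0 ≤ κ → 0 ≤ ζ → ζ ≤ ε → 0 < τ → κ + 1 < s0 * τ → (s0 : ℝ) ^ 2 * (2 * ε) ≤ 1 →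
    τ * a l * κ ≤ (z / 2) ^ 2 → (a l : ℝ) * a (l + 1) * ζ ^ 2 ≤ (z / 2) ^ 2 →
    P5 g t E (κ + 1) z l (psiN g lam Bad l ψ)

/-- SPC (size of the sets of captured vertices).

Proof. For `j ∈ Cap` choose `f_j`; apply StCap with `T` = the subtype of `Cap`, `ψ j = ψ q j`, `L = κ + z`:
`∑_(j∈Cap) ‖pr (ψ q j) f‖² ≤ (‖y1‖_2 + ‖y2‖_2)² ≤ (κ + z)²` (Minkowski; `‖y1‖_2 ≤ ‖y1‖_1 ≤ κ`). -/
def StSpc : Prop :=
  StCap → StTrh → ∀ (P : Type) [Fintype P] [DecidableEq P] (k b : ℕ) (a : ℕ → ℕ) (g : LG P k b a) (S : Type)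
    [Fintype S] [DecidableEq S] (t : S → ℝ) (E : Matrix (S × P) (S × P) ℂ) (l q : ℕ)
    (ψ : ℕ → (S × P) → (S × P) → ℝ) (ρ κ z ε : ℝ), (E.rank : ℝ) ≤ ρ → 0 < ε → 0 ≤ κ → 0 ≤ z → l ≤ q → q ≤ k →
    P5 g t E κ z l ψ → ((Cap g t E ε ψ l q).card : ℝ) * ε ^ 2 ≤ ρ * (κ + z) ^ 2

/-- SPF (size of the set of vertices with too few children outside `Bad`).

Proof. For `j ∈ Few`: `|ch j.2| = a (l+1) =: A`, `|Gs g Bad j| < A / lam`, so at least `A - A/lam = A (lam-1)/lam` of the `(j.1, c)`, `c ∈ ch j.2`,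
lie in `Bad`.  Every element `u` of `Bad` arises from at most `a l` vertices `j ∈ Al g t l` (`j.1 = u.1`, `u.2 ∈ ch j.2`, `card_par`,
`lev u.2 = l + 1` since `Bad ⊆ Al g t (l+1)`).  So `|Few| A (lam-1)/lam ≤ a l |Bad|`. -/
def StSpf : Prop :=
  ∀ (P : Type) [Fintype P] [DecidableEq P] (k b : ℕ) (a : ℕ → ℕ) (g : LG P k b a) (S : Type) [Fintype S]
    [DecidableEq S] (t : S → ℝ) (lam : ℝ) (Bad : Finset (S × P)) (l : ℕ), 1 < lam → l < k →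
    Bad ⊆ Al g t (l + 1) →
    ((Few g t lam Bad l).card : ℝ) * (a (l + 1) * ((lam - 1) / lam)) ≤ a l * Bad.card

/-- FIN (the contradiction).

Proof. Write `x = blk t (xmat g C)`, `E = x Y`, `1 - E = (1 - x) Z`.  `Bad` of `Inv` for `l = 0` is not all of `Al g t 0` (`β < 1`, `Al g t 0` nonempty):
let `j = (s, t0) ∈ Al g t 0`, `j ∉ Bad`, and `φ = ∑_(q ≤ k) (lam/C)^q ψ q j : S × P → ℝ`.  With `e = e_j`: `pr φ e = φ j = 1` (`ψ 0 j j = 1`, and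
`ψ q j j = 0` for `q ≥ 1` since the elements of `gen t0 q` have level `q`).  (A) `E e` is in the range of `E`, `n1 (E e) ≤ C K`, P4:
`‖pr φ (E e)‖ ≤ ∑_q (lam/C)^q ε C K ≤ ε C K C/(C - lam) ≤ 1/4`.  (B) `pr φ ((1 - x) v) = ∑_i (φ i - (φ x) i) v i` with
`(φ x) i = ∑_(i') φ i' x i' i`; claim `|φ i - (φ x) i| ≤ 1/(4K)` for all `i`; so for `v = Z e`, `n1 v ≤ K`, the norm is `≤ 1/4`.
Proof of the claim, `i = (s', u)`: `s' ≠ s`: both vanish (P1).  `s' = s` (`t s = 1`), `q = lev u`: `φ i = (lam/C)^q ψ q j i` and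
`(φ x) i = (lam/C)^(q+1) (C / a (q+1)) ∑_(c∈ch u) ψ (q+1) j (s,c)`.  If `q < k`, `u ∈ gen t0 q`: equal by P3.  If `q < k`, `u ∉ gen t0 q`:
`φ i = 0`, and the sum is at most `|ch u ∩ gen t0 (q+1)| ≤ |gen t0 q| ≤ ∏_(i=1)^q a i` by StGen: the condition `err` of `Par`.
If `q = k`: `ch u = ∅`, `|φ i| ≤ (lam/C)^k ≤ 1/(4K)`.  (C) `1 = pr φ e = pr φ (E e) + pr φ ((1 - x) Z e)` has norm `≤ 1/2`. -/
def StFin : Prop :=
  StGen → StAlc → ∀ (P : Type) [Fintype P] [DecidableEq P] (k b : ℕ) (a : ℕ → ℕ) (g : LG P k b a) (S : Type)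
    [Fintype S] [DecidableEq S] (t : S → ℝ) (C K lam : ℝ) (eps tau z : ℕ → ℝ) (s0 : ℕ → ℕ)
    (Y Z : Matrix (S × P) (S × P) ℂ) (κ z' β : ℝ), 1 ≤ b → 1 < lam → lam < C → 1 ≤ K →
    Par C K lam k a eps tau z s0 → (∃ s, t s = 1) → β < 1 →
    ColLe (blk t (xmat g C) * Y) (C * K) → ColLe Z K →
    1 - blk t (xmat g C) * Y = (1 - blk t (xmat g C)) * Z →
    (blk t (xmat g C) * Y) * (blk t (xmat g C) * Y) = blk t (xmat g C) * Y →
    ¬ Inv g t lam (blk t (xmat g C) * Y) (eps 0) κ z' β 0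

/-- the finite theorem -/
def StFT : Prop :=
  ∀ r : ℝ, 1 < r → ∀ K : ℝ, ∃ (N : ℕ) (x0 : Matrix (Fin N) (Fin N) ℂ), 0 < N ∧ ColLe x0 r ∧
    ∀ (S : Type) [Fintype S] [DecidableEq S] (t : S → ℝ), (∀ s, 0 ≤ t s ∧ t s ≤ 1) → (∃ s, t s = 1) →
      Fintype.card S ≤ 4 * (univ.filter fun s => t s = 1).card →
      ∀ Y Z : Matrix (S × Fin N) (S × Fin N) ℂ, ColLe Y K → ColLe Z K →
        (blk t x0 * Y) * (blk t x0 * Y) = blk t x0 * Y → 1 - blk t x0 * Y = (1 - blk t x0) * Z → False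

end Pool.Agent.Helper63.XR
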