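import Pool.Agent.Helper63.XR.AllB

/-!
# Project XR: from uniform failure to bounded sequences
-/

set_option autoImplicit false

namespace Pool.Agent.Helper63.XR

open Finset Filter Topology MeasureTheory
open scoped BoundedContinuousFunction

/-- the exchange property of one element `x` of a unital ring -/
def Exch (R : Type) [Ring R] (x : R) : Prop := ∃ e : R, e * e = e ∧ (∃ y, e = x * y) ∧ ∃ z, 1 - e = (1 - x) * z

/-- the algebra `A = F^1_r(ℤ, X, h)` exists, and for every `r > 1` exchange fails in it uniformly on the ball of radius `r`: for every `K`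
some `x` with `‖x‖ ≤ r` has no `y, z` with `‖y‖, ‖z‖ ≤ K`, `x y` idempotent and `1 - x y = (1 - x) z`; hence the Banach algebra
`ℕ →ᵇ A` of the bounded sequences in `A` has an element of norm at most `r` without the exchange property -/
def Fails {X : Type} [TopologicalSpace X] [CompactSpace X] (h : X ≃ₜ X) : Prop :=
  (∃ (A : Type) (_ : NormedRing A) (_ : NormedAlgebra ℂ A) (j : C(X, ℂ) →ₐ[ℂ] A) (U : Aˣ), IsF1 h A j U) ∧
  ∀ (A : Type) [NormedRing A] [NormedAlgebra ℂ A] (j : C(X, ℂ) →ₐ[ℂ] A) (U : Aˣ), IsF1 h A j U →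
    ∀ r : ℝ, 1 < r →
      (∀ K : ℝ, ∃ x : A, ‖x‖ ≤ r ∧ ¬ ∃ y z : A, ‖y‖ ≤ K ∧ ‖z‖ ≤ K ∧ (x * y) * (x * y) = x * y ∧
        1 - x * y = (1 - x) * z) ∧
      ∃ x : ℕ →ᵇ A, ‖x‖ ≤ r ∧ ¬ Exch (ℕ →ᵇ A) x

theorem seq_of_uniform (A : Type) [NormedRing A] (r : ℝ) (hr : 1 < r)
    (h : ∀ K : ℝ, ∃ x : A, ‖x‖ ≤ r ∧ ¬ ∃ y z : A, ‖y‖ ≤ K ∧ ‖z‖ ≤ K ∧ (x * y) * (x * y) = x * y ∧
      1 - x * y = (1 - x) * z) : ∃ x : ℕ →ᵇ A, ‖x‖ ≤ r ∧ ¬ Exch (ℕ →ᵇ A) x := by
  choose x hx hno using fun n : ℕ => h n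
  refine ⟨BoundedContinuousFunction.ofNormedAddCommGroupDiscrete x r hx, ?_, ?_⟩
  · exact BoundedContinuousFunction.norm_ofNormedAddCommGroup_le _ (by linarith) hx
  · rintro ⟨e, hee, ⟨y, hy⟩, z, hz⟩
    obtain ⟨n, hn⟩ := exists_nat_ge (max ‖y‖ ‖z‖)
    refine hno n ⟨y n, z n, (y.norm_coe_le_norm n).trans ((le_max_left _ _).trans hn),
      (z.norm_coe_le_norm n).trans ((le_max_right _ _).trans hn), ?_, ?_⟩
    · have h1 : e n = x n * y n := by rw [hy]; rfl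
      have h2 : (e * e) n = e n := by rw [hee]
      rw [← h1]
      exact h2
    · have h1 : e n = x n * y n := by rw [hy]; rfl
      have h2 : (1 - e) n = (1 - x n) * z n := by rw [hz]; rfl
      rw [← h1]
      exact h2

end Pool.Agent.Helper63.XR
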