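import Pool.Agent.Helper63.XR.Defs

/-!
# Project XR: definitions of the crossed products
-/

set_option autoImplicit false

namespace Pool.Agent.Helper63.XR

open Finset Filter Topology MeasureTheory

variable {X : Type} [TopologicalSpace X]

/-- finite sums `∑ f_n u^n`, `f_n ∈ C(X)` -/
abbrev FS (X : Type) [TopologicalSpace X] : Type := ℤ →₀ C(X, ℂ)

/-- `f ∘ h^n` -/
noncomputable def cmp (h : X ≃ₜ X) (n : ℤ) (f : C(X, ℂ)) : C(X, ℂ) := f.comp ⟨(h ^ n : X ≃ₜ X), (h ^ n : X ≃ₜ X).continuous⟩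

/-- the product of finite sums: `f u^m * g u^n = f (g ∘ h^(-m)) u^(m+n)` -/
noncomputable def tw (h : X ≃ₜ X) (g g' : FS X) : FS X :=
  g.sum fun m f => g'.sum fun n f' => Finsupp.single (m + n) (f * cmp h (-m) f')

/-- the matrix of a finite sum on the orbit segment `t, h t, ..., h^(M-1) t`, read modulo `M` -/
noncomputable def th (h : X ≃ₜ X) (t : X) (M : ℕ) (g : FS X) : Matrix (Fin M) (Fin M) ℂ :=
  fun i j => g.sum fun n f => if ((M : ℤ) ∣ (n + (j : ℤ) - (i : ℤ))) then f ((h ^ ((i : ℕ) : ℤ) : X ≃ₜ X) t) else 0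

/-- `M → ∞` with `h^M t → t` -/
def rec (h : X ≃ₜ X) (t : X) : Filter ℕ := atTop ⊓ comap (fun M : ℕ => (h ^ ((M : ℕ) : ℤ) : X ≃ₜ X) t) (𝓝 t)

/-- the element `∑_(i,i' < N) x0 i i' (f ∘ h^(-i)) u^(i-i')` -/
noncomputable def gx (h : X ≃ₜ X) {N : ℕ} (x0 : Matrix (Fin N) (Fin N) ℂ) (f : C(X, ℂ)) : FS X :=
  ∑ i : Fin N, ∑ j : Fin N, Finsupp.single (((i : ℕ) : ℤ) - ((j : ℕ) : ℤ)) (x0 i j • cmp h (-((i : ℕ) : ℤ)) f)

/-- the geometric input: for every `N` a point `t` and a continuous bump `f` at `t` whose translates by `h^i`, `|i| < N`, are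
disjoint, such that `t` is recurrent and the orbit of `t` meets `{f ≠ 0}` at most four times as often as `{f = 1}` -/
def Geo (h : X ≃ₜ X) : Prop :=
  ∀ N : ℕ, ∃ (t : X) (f : C(X, ℝ)), (∀ x, 0 ≤ f x ∧ f x ≤ 1) ∧ f t = 1 ∧
    (∀ x, ∀ i : ℕ, 0 < i → i < N → f x * f ((h ^ ((i : ℕ) : ℤ) : X ≃ₜ X) x) = 0) ∧ (rec h t).NeBot ∧
    ∀ᶠ M : ℕ in atTop, ((Finset.range M).filter fun j => f ((h ^ ((j : ℕ) : ℤ) : X ≃ₜ X) t) ≠ 0).card ≤
      4 * ((Finset.range M).filter fun j => f ((h ^ ((j : ℕ) : ℤ) : X ≃ₜ X) t) = 1).card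

/-- a nondegenerate (here: unital) contractive representation of `C(X)` on `L^1(Y, ν)`, `ν` sigma-finite -/
structure Rep (X : Type) [TopologicalSpace X] [CompactSpace X] where
  /-- the space -/
  Y : Type
  /-- its measurable sets -/
  mY : MeasurableSpace Y
  /-- the measure -/
  ν : Measure Y
  sf : SigmaFinite ν
  /-- the representation -/
  π : C(X, ℂ) →ₐ[ℂ] (Lp ℂ 1 ν →L[ℂ] Lp ℂ 1 ν)
  contr : ∀ f, ‖π f‖ ≤ ‖f‖

/-- the vector `(∑ σ_π(f_n) u^n) ξ` for `ξ ∈ l^1(ℤ, L^1(Y, ν))` of finite support: its value at `m` is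
`∑_n π(α^(-m) f_n) ξ(m - n)`, `α^(-m) f = f ∘ h^m` -/
noncomputable def act [CompactSpace X] (h : X ≃ₜ X) (ρ : Rep X) (g : FS X) (ξ : ℤ →₀ Lp ℂ 1 ρ.ν) (m : ℤ) :
    Lp ℂ 1 ρ.ν :=
  g.sum fun n f => ρ.π (cmp h m f) (ξ (m - n))

/-- the norm of a finite sum in `F^1_r(ℤ, X, h)`: the least `c ≥ 0` with `‖(∑ σ_π(f_n) u^n) ξ‖ ≤ c ‖ξ‖` for all
representations `π` and all `ξ` of finite support in `l^1(ℤ, L^1(Y, ν))` -/
noncomputable def nrm [CompactSpace X] (h : X ≃ₜ X) (g : FS X) : ℝ :=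
  sInf {c : ℝ | 0 ≤ c ∧ ∀ (ρ : Rep X) (ξ : ℤ →₀ Lp ℂ 1 ρ.ν),
    ∑' m : ℤ, ‖act h ρ g ξ m‖ ≤ c * ∑' m : ℤ, ‖ξ m‖}

/-- `A` is the Banach algebra `F^1_r(ℤ, X, h)`, the completion of the algebra of finite sums: `j : C(X) → A` and the unit `U` satisfy
`U j(f) U^(-1) = j(f ∘ h^(-1))`, finite sums have the norm `nrm` and are dense -/
structure IsF1 [CompactSpace X] (h : X ≃ₜ X) (A : Type) [NormedRing A] [NormedAlgebra ℂ A] (j : C(X, ℂ) →ₐ[ℂ] A)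
    (U : Aˣ) : Prop where
  complete : CompleteSpace A
  cov : ∀ f, (U : A) * j f = j (cmp h (-1) f) * U
  norm_eq : ∀ g : FS X, ‖g.sum fun n f => j f * ((U ^ n : Aˣ) : A)‖ = nrm h g
  dense : Dense (Set.range fun g : FS X => g.sum fun n f => j f * ((U ^ n : Aˣ) : A))

/-- the element of `A` of a finite sum -/
noncomputable def ev [CompactSpace X] {A : Type} [NormedRing A] [NormedAlgebra ℂ A] (j : C(X, ℂ) →ₐ[ℂ] A) (U : Aˣ)
    (g : FS X) : A :=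
  g.sum fun n f => j f * ((U ^ n : Aˣ) : A)

end Pool.Agent.Helper63.XR
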