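import Pool.Agent.Helper63.XR.StA

set_option autoImplicit false

namespace Pool.Agent.Helper63.XR

open Finset

theorem bon_aux {U T : Type} [Fintype U] [DecidableEq U] [DecidableEq T] (y : U → ℝ) (G : T → Finset U) (δ : ℝ)
    (T1 : Finset T) (hy : ∀ t ∈ T1, ∀ u ∈ G t, y u ≤ δ)
    (hG : ∀ t ∈ T1, ∀ t' ∈ T1, t ≠ t' → (G t ∩ G t').card ≤ 1) (hδ : 0 ≤ δ) (T2 : Finset T) : T2 ⊆ T1 →
    ∑ t ∈ T2, ∑ u ∈ G t, y u ≤ ∑ u ∈ T2.biUnion G, y u + (T2.card : ℝ) ^ 2 * δ := by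
  induction T2 using Finset.induction_on with
  | empty => intro _; simp
  | insert a s ha ih =>
    intro hs
    have haT : a ∈ T1 := hs (Finset.mem_insert_self _ _)
    have hsT : s ⊆ T1 := fun t ht => hs (Finset.mem_insert_of_mem ht)
    have ih' := ih hsT
    rw [Finset.sum_insert ha, Finset.biUnion_insert, Finset.card_insert_of_notMem ha]
    have e1 : ∑ u ∈ G a ∪ s.biUnion G, y u + ∑ u ∈ G a ∩ s.biUnion G, y u = ∑ u ∈ G a, y u + ∑ u ∈ s.biUnion G, y u :=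
      Finset.sum_union_inter
    have e2 : (G a ∩ s.biUnion G).card ≤ s.card := by
      rw [Finset.inter_biUnion]
      refine Finset.card_biUnion_le.trans ?_
      calc ∑ t ∈ s, (G a ∩ G t).card ≤ ∑ t ∈ s, 1 := Finset.sum_le_sum fun t ht =>
            hG a haT t (hsT ht) (fun h => ha (h ▸ ht))
        _ = s.card := by simp
    have e3 : ∑ u ∈ G a ∩ s.biUnion G, y u ≤ s.card * δ := by
      calc ∑ u ∈ G a ∩ s.biUnion G, y u ≤ ∑ u ∈ G a ∩ s.biUnion G, δ :=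
            Finset.sum_le_sum fun u hu => hy a haT u (Finset.mem_inter.1 hu).1
        _ = ((G a ∩ s.biUnion G).card : ℝ) * δ := by rw [Finset.sum_const, nsmul_eq_mul]
        _ ≤ s.card * δ := mul_le_mul_of_nonneg_right (by exact_mod_cast e2) hδ
    push_cast
    nlinarith [mul_nonneg (Nat.cast_nonneg (α := ℝ) s.card) hδ]

theorem hBON : StBon := by
  intro U T _ _ _ y G κ δ τ s0 T1 F hy hsum hyδ hG hτ hF hs1 hs2 hδ
  have key : ∀ T2 ⊆ T1, ∑ t ∈ T2, F t ≤ κ + (T2.card : ℝ) ^ 2 * δ := by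
    intro T2 hT2
    calc ∑ t ∈ T2, F t ≤ ∑ t ∈ T2, ∑ u ∈ G t, y u := Finset.sum_le_sum fun t ht => hF t (hT2 ht)
      _ ≤ ∑ u ∈ T2.biUnion G, y u + (T2.card : ℝ) ^ 2 * δ := bon_aux y G δ T1 hyδ hG hδ T2 hT2
      _ ≤ κ + (T2.card : ℝ) ^ 2 * δ := by
        refine add_le_add ?_ le_rfl
        exact (Finset.sum_le_sum_of_subset_of_nonneg (Finset.subset_univ _) fun u _ _ => hy u).trans hsum
  have hlt : T1.card < s0 := by
    by_contra hcon
    push Not at hcon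
    obtain ⟨T2, hT2, hc⟩ := Finset.exists_subset_card_eq hcon
    have h1 := key T2 hT2
    have h2 : (T2.card : ℝ) * τ ≤ ∑ t ∈ T2, F t := by
      calc (T2.card : ℝ) * τ = ∑ t ∈ T2, τ := by rw [Finset.sum_const, nsmul_eq_mul]
        _ ≤ ∑ t ∈ T2, F t := Finset.sum_le_sum fun t ht => hτ t (hT2 ht)
    rw [hc] at h1 h2
    linarith
  refine ⟨hlt, (key T1 (Finset.Subset.refl _)).trans ?_⟩
  have h3 : (T1.card : ℝ) ^ 2 * δ ≤ (s0 : ℝ) ^ 2 * δ := by
    have : (T1.card : ℝ) ≤ s0 := by exact_mod_cast hlt.le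
    exact mul_le_mul_of_nonneg_right (pow_le_pow_left₀ (Nat.cast_nonneg _) this 2) hδ
  linarith

end Pool.Agent.Helper63.XR
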