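import Pool.Agent.Helper63.XR.StB

/-!
# Project XR: statements, part C (existence of the crossed product, so that the theorem is not about an empty class)
-/

set_option autoImplicit false

namespace Pool.Agent.Helper63.XR

open Finset Filter Topology MeasureTheory

/-- EX1 (the crossed product acts on `l^1(ℤ × X)`).

Proof. `E = lp (fun _ : ℤ × X => ℂ) 1` (complete), `B = E →L[ℂ] E`.  `j f` = multiplication by the bounded function
`(m, x) ↦ f (h^m x)`, `‖j f ξ‖ ≤ ‖f‖ ‖ξ‖`; `j` is a unital algebra homomorphism.  `U` = the shift `(U ξ)(m, x) = ξ(m - 1, x)`, an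
isometry with the inverse `(U⁻¹ ξ)(m, x) = ξ(m + 1, x)`, `(U^n ξ)(m, x) = ξ(m - n, x)` (`n ∈ ℤ`).  `(U j(f) ξ)(m, x) = f(h^(m-1) x) ξ(m-1, x)
 = (j(f ∘ h^(-1)) U ξ)(m, x)`.  Norm: `(∑ j(g_n) U^n ξ)(m, x) = ∑_n g_n(h^m x) ξ(m - n, x)`.  Upper bound with `c = nrm h g`:
`∑_(m,x) ‖.‖ ≤ ∑_(m,x) ∑_n ‖g_n(h^m x)‖ ‖ξ(m-n, x)‖ = ∑_(m',x) (∑_n ‖g_n(h^n (h^(m') x))‖) ‖ξ(m', x)‖ ≤ c ‖ξ‖` by StNlb (`cs h g (nrm h g)`).
Lower bound: for `x ∈ X` and the unit vector `ξ = δ_(0,x)` the value at `(n, x)` is `g_n(h^n x)`, so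
`∑_n ‖g_n(h^n x)‖ = ‖∑ j(g_n) U^n ξ‖ ≤ ‖∑ j(g_n) U^n‖ =: c'`, i.e. `cs h g c'`, and `nrm h g ≤ c'` by StNub. -/
def StEx1 : Prop :=
  StNub → StRc → StRb → StRa → StNlb → ∀ (X : Type) [TopologicalSpace X] [CompactSpace X] (h : X ≃ₜ X),
    ∃ (B : Type) (_ : NormedRing B) (_ : NormedAlgebra ℂ B) (_ : CompleteSpace B) (j : C(X, ℂ) →ₐ[ℂ] B) (U : Bˣ),
      (∀ f, (U : B) * j f = j (cmp h (-1) f) * U) ∧ ∀ g : FS X, ‖ev j U g‖ = nrm h g

/-- EX2 (existence of the algebra `F^1_r(ℤ, X, h)`).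

Proof. Let `B, j, U` be as in StEx1.  `U^m j(f) = j(f ∘ h^(-m)) U^m` for `m ∈ ℤ`, so the range of `ev j U` is a subalgebra `S` of `B` (it contains
`1 = ev (single 0 1)`, `ev` is linear and `ev g * ev g' = ev (tw h g g')`).  `A` = `S.topologicalClosure`, closed in the complete space `B`, so
complete; it contains `j f`, `U`, `U⁻¹`; the norms are those of `B`; the range of `ev` is dense in its closure. -/
def StEx2 : Prop :=
  StEx1 → StNub → StRc → StRb → StRa → StNlb → ∀ (X : Type) [TopologicalSpace X] [CompactSpace X] (h : X ≃ₜ X),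
    ∃ (A : Type) (_ : NormedRing A) (_ : NormedAlgebra ℂ A) (j : C(X, ℂ) →ₐ[ℂ] A) (U : Aˣ), IsF1 h A j U

end Pool.Agent.Helper63.XR
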