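import Pool.Agent.Helper63.XR.AllC
import Pool.Agent.Helper63.XR.StC
import Pool.Agent.Helper63.XR.M_BON
import Pool.Agent.Helper12.XR.M_BLK
import Pool.Agent.Helper12.XR.M_EX1
import Pool.Agent.Helper16.XR.M_GCJ
import Pool.Agent.Helper16.XR.M_SP1
import Pool.Agent.Helper18.XR.M_RC
import Pool.Agent.Helper2.XR.M_BAS
import Pool.Agent.Helper2.XR.M_EEE
import Pool.Agent.Helper28.XR.M_SPC
import Pool.Agent.Helper36.XR.M_NEW
import Pool.Agent.Helper36.XR.M_RB
import Pool.Agent.Helper4.XR.M_XNM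
import Pool.Agent.Helper42.XR.M_CMP
import Pool.Agent.Helper43.XR.M_MUL
import Pool.Agent.Helper43.XR.M_NRM
import Pool.Agent.Helper43.XR.M_RA
import Pool.Agent.Helper48.XR.M_TRH
import Pool.Agent.Helper57.XR.M_PAR
import Pool.Agent.Helper6.XR.M_GRA
import Pool.Agent.Helper60.XR.M_EVM
import Pool.Agent.Helper61.XR.M_EX2
import Pool.Agent.Helper62.XR.M_DEC
import Pool.Agent.Helper65.XR.M_FIN
import Pool.Agent.Helper65.XR.M_GAD
import Pool.Agent.Helper71.XR.M_CAP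
import Pool.Agent.Helper71.XR.M_GCI
import Pool.Agent.Helper79.XR.M_SPF
import Pool.Agent.Helper80.XR.M_ALC
import Pool.Agent.Helper80.XR.M_GCA
import Pool.Agent.Helper82.XR.M_NEM
import Pool.Agent.Helper82.XR.M_NUB
import Pool.Agent.Helper84.XR.M_GEN
import Pool.Agent.Helper84.XR.M_NLB
import Pool.Agent.Helper90.XR.M_SP3
import Pool.Agent.Helper92.XR.M_REC
import Pool.Agent.Helper92.XR.M_RKT
import Pool.Agent.Helper98.XR.M_SP5

/-!
# Project XR: the theorem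
-/

set_option autoImplicit false

namespace Pool.Agent.Helper63.XR

open Finset Filter Topology MeasureTheory
open scoped BoundedContinuousFunction

theorem hFT : StFT :=
  ft Pool.Agent.Helper48.XR.hTRH Pool.Agent.Helper92.XR.hRKT Pool.Agent.Helper71.XR.hCAP hBON
    Pool.Agent.Helper62.XR.hDEC Pool.Agent.Helper57.XR.hPAR Pool.Agent.Helper6.XR.hGRA Pool.Agent.Helper84.XR.hGEN
    Pool.Agent.Helper80.XR.hALC Pool.Agent.Helper2.XR.hEEE Pool.Agent.Helper2.XR.hBAS Pool.Agent.Helper16.XR.hSP1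
    Pool.Agent.Helper90.XR.hSP3 Pool.Agent.Helper98.XR.hSP5 Pool.Agent.Helper28.XR.hSPC Pool.Agent.Helper79.XR.hSPF
    Pool.Agent.Helper65.XR.hFIN

theorem fails_of_geo (X : Type) [TopologicalSpace X] [CompactSpace X] (h : X ≃ₜ X) (hg : Geo h) : Fails h := by
  refine ⟨Pool.Agent.Helper61.XR.hEX2 Pool.Agent.Helper12.XR.hEX1 Pool.Agent.Helper82.XR.hNUB
    Pool.Agent.Helper18.XR.hRC Pool.Agent.Helper36.XR.hRB Pool.Agent.Helper43.XR.hRA Pool.Agent.Helper84.XR.hNLB X h, ?_⟩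
  intro A _ _ j U hA r hr
  have key := fun K => transfer hFT Pool.Agent.Helper43.XR.hMUL Pool.Agent.Helper43.XR.hNRM
    Pool.Agent.Helper12.XR.hBLK Pool.Agent.Helper4.XR.hXNM Pool.Agent.Helper36.XR.hNEW Pool.Agent.Helper82.XR.hNEM
    Pool.Agent.Helper42.XR.hCMP Pool.Agent.Helper60.XR.hEVM Pool.Agent.Helper43.XR.hRA Pool.Agent.Helper36.XR.hRB
    Pool.Agent.Helper18.XR.hRC Pool.Agent.Helper82.XR.hNUB Pool.Agent.Helper84.XR.hNLB X h hg A j U hA r hr K
  exact ⟨key, seq_of_uniform A r hr key⟩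

theorem cantor (X : Type) [MetricSpace X] [CompactSpace X] [TotallyDisconnectedSpace X] [Infinite X] (h : X ≃ₜ X)
    (hmin : ∀ x, Dense (Set.range fun n : ℤ => (h ^ n : X ≃ₜ X) x)) : Fails h :=
  fails_of_geo X h (Pool.Agent.Helper80.XR.hGCA Pool.Agent.Helper92.XR.hREC X h hmin)

theorem rotation (θ : ℝ) (hθ : Irrational θ) :
    Fails (Homeomorph.mulLeft (Circle.exp (2 * Real.pi * θ))) :=
  fails_of_geo _ _ (Pool.Agent.Helper71.XR.hGCI Pool.Agent.Helper65.XR.hGAD Pool.Agent.Helper16.XR.hGCJ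
    Pool.Agent.Helper92.XR.hREC θ hθ)

end Pool.Agent.Helper63.XR
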