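import Pool.Agent.Helper63.XR.StA

/-!
# Project XR: assembly of the finite theorem
-/

set_option autoImplicit false

namespace Pool.Agent.Helper63.XR

open Finset

variable {P : Type} [Fintype P] [DecidableEq P] {k b : ℕ} {a : ℕ → ℕ} {S : Type} [Fintype S] [DecidableEq S]

theorem few_sub (g : LG P k b a) (t : S → ℝ) (lam : ℝ) (Bad : Finset (S × P)) (l : ℕ) :
    Few g t lam Bad l ⊆ Al g t l := by
  unfold Few; exact Finset.filter_subset _ _

open Classical in
theorem cap_sub (g : LG P k b a) (t : S → ℝ) (E : Matrix (S × P) (S × P) ℂ) (ε : ℝ)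
    (ψ : ℕ → (S × P) → (S × P) → ℝ) (l q : ℕ) : Cap g t E ε ψ l q ⊆ Al g t l := by
  unfold Cap; exact Finset.filter_subset _ _

theorem n1_nonneg {J : Type} [Fintype J] (f : J → ℂ) : 0 ≤ n1 f :=
  Finset.sum_nonneg fun _ _ => norm_nonneg _

theorem n1_smul {J : Type} [Fintype J] (c : ℂ) (f : J → ℂ) : n1 (c • f) = ‖c‖ * n1 f := by
  unfold n1
  rw [Finset.mul_sum]
  exact Finset.sum_congr rfl fun i _ => by simp

theorem pr_smul {J : Type} [Fintype J] (φ : J → ℝ) (c : ℂ) (f : J → ℂ) : pr φ (c • f) = c * pr φ f := by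
  unfold pr
  rw [Finset.mul_sum]
  exact Finset.sum_congr rfl fun i _ => by simp; ring

open Classical in
theorem p4_of_cap (g : LG P k b a) (t : S → ℝ) (E : Matrix (S × P) (S × P) ℂ) (ε : ℝ)
    (ψ : ℕ → (S × P) → (S × P) → ℝ) (l q : ℕ) (j : S × P) (hj : j ∈ Al g t l) (hc : j ∉ Cap g t E ε ψ l q)
    (f : S × P → ℂ) (hf : E.mulVec f = f) : ‖pr (ψ q j) f‖ ≤ ε * n1 f := by
  have hno : ∀ f : S × P → ℂ, E.mulVec f = f → n1 f ≤ 1 → ‖pr (ψ q j) f‖ < ε := by
    intro f hf h1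
    by_contra hcon
    push Not at hcon
    exact hc (by unfold Cap; exact Finset.mem_filter.2 ⟨hj, f, hf, h1, hcon⟩)
  rcases (n1_nonneg f).eq_or_lt with h0 | h0
  · have hz : ∀ i, f i = 0 := by
      intro i
      have := (Finset.sum_eq_zero_iff_of_nonneg (fun i _ => norm_nonneg (f i))).1 h0.symm i (Finset.mem_univ i)
      exact norm_eq_zero.1 this
    have : pr (ψ q j) f = 0 := by
      unfold pr
      exact Finset.sum_eq_zero fun i _ => by rw [hz i]; simp
    rw [this, ← h0]; simp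
  · have h2 := hno ((((n1 f)⁻¹ : ℝ) : ℂ) • f) (by rw [Matrix.mulVec_smul, hf]) (by
      rw [n1_smul, Complex.norm_real, Real.norm_of_nonneg (inv_nonneg.2 h0.le), inv_mul_cancel₀ h0.ne'])
    rw [pr_smul, norm_mul, Complex.norm_real, Real.norm_of_nonneg (inv_nonneg.2 h0.le)] at h2
    have h3 : ‖pr (ψ q j) f‖ = n1 f * ((n1 f)⁻¹ * ‖pr (ψ q j) f‖) := by
      field_simp
    rw [h3, mul_comm ε]
    exact mul_le_mul_of_nonneg_left h2.le h0.le

theorem inv_step (hALC : StAlc) (hGEN : StGen) (hDEC : StDec) (hBON : StBon) (hSP1 : StSp1) (hSP3 : StSp3)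
    (hSP5 : StSp5) (hSPC : StSpc) (hCAP : StCap) (hTRH : StTrh) (hSPF : StSpf)
    (g : LG P k b a) (t : S → ℝ) (C K lam : ℝ) (eps tau z : ℕ → ℝ) (s0 : ℕ → ℕ)
    (hpar : Par C K lam k a eps tau z s0) (hlam : 1 < lam) (hC : 0 < C) (hK : 0 < K)
    (E : Matrix (S × P) (S × P) ℂ) (hrank : (E.rank : ℝ) ≤ Fintype.card S * k * b * C * K)
    (hS : Fintype.card S ≤ 4 * (univ.filter fun s => t s = 1).card) (l : ℕ) (hl : l < k)
    (hinv : Inv g t lam E (eps (l + 1)) ((k - (l + 1) : ℕ) + 1 : ℝ) (z (l + 1))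
      (((lam - 1) / lam) ^ (l + 1) / 2 ^ (l + 1 + 1)) (l + 1)) :
    Inv g t lam E (eps l) ((k - l : ℕ) + 1 : ℝ) (z l) (((lam - 1) / lam) ^ l / 2 ^ (l + 1)) l := by
  obtain ⟨Bad, ψ, hsub, h1, h2, h3, h4, h5, hcard⟩ := hinv
  have hlam0 : 0 < lam := by linarith
  have hθ : 0 < (lam - 1) / lam := div_pos (by linarith) hlam0
  set ψ' := psiN g lam Bad l ψ with hψ'
  obtain ⟨q1, q2⟩ := hSP1 hGEN P k b a g S t lam Bad l ψ hlam0 hl h1
  have q3 := hSP3 hGEN P k b a g S t lam Bad l ψ hlam0 hpar.a_pos hl h1 h2 h3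
  have hz1 := hpar.z_pos (l + 1) hl
  have hz0 := hpar.z_pos l hl.le
  have he0 := hpar.eps_pos l hl.le
  have q5 := hSP5 hDEC hBON P k b a g S t lam E Bad l ψ ((k - (l + 1) : ℕ) + 1 : ℝ) (z (l + 1)) (eps (l + 1)) (tau l)
    (z l) (s0 l) hlam0 hl h4 h5 (by positivity) hz1.1.le hz1.2 (hpar.tau_pos l hl) (hpar.sig l hl) (hpar.sig2 l hl)
    (hpar.ins l hl) (hpar.noi l hl)
  have hkap : ((k - (l + 1) : ℕ) + 1 : ℝ) + 1 = ((k - l : ℕ) + 1 : ℝ) := by
    have : k - l = (k - (l + 1)) + 1 := by omega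
    rw [this]; push_cast; ring
  rw [hkap] at q5
  refine ⟨Few g t lam Bad l ∪ (Icc l k).biUnion (fun q => Cap g t E (eps l) ψ' l q), ψ', ?_, q1, q2, ?_, ?_, q5, ?_⟩
  · refine Finset.union_subset (few_sub _ _ _ _ _) ?_
    exact Finset.biUnion_subset.2 fun q _ => cap_sub _ _ _ _ _ _ _
  · intro j hj hjb
    exact q3 j hj fun h => hjb (Finset.mem_union_left _ h)
  · intro j hj hjb q hq1 hq2 f hf
    refine p4_of_cap g t E (eps l) ψ' l q j hj (fun h => hjb (Finset.mem_union_right _ ?_)) f hf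
    exact Finset.mem_biUnion.2 ⟨q, Finset.mem_Icc.2 ⟨hq1, hq2⟩, h⟩
  · -- cardinality
    set m1 := (univ.filter fun s => t s = 1).card with hm1
    have hAl0 : (Al g t l).card = m1 * (a l * b) := hALC P k b a g S t l hl.le
    have hAl1 : (Al g t (l + 1)).card = m1 * (a (l + 1) * b) := hALC P k b a g S t (l + 1) hl
    have hcard1 : ((Few g t lam Bad l ∪ (Icc l k).biUnion (fun q => Cap g t E (eps l) ψ' l q)).card : ℝ) ≤
        (Few g t lam Bad l).card + ∑ q ∈ Icc l k, ((Cap g t E (eps l) ψ' l q).card : ℝ) := by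
      have e1 := Finset.card_union_le (Few g t lam Bad l) ((Icc l k).biUnion (fun q => Cap g t E (eps l) ψ' l q))
      have e2 : ((Icc l k).biUnion (fun q => Cap g t E (eps l) ψ' l q)).card ≤
          ∑ q ∈ Icc l k, (Cap g t E (eps l) ψ' l q).card := Finset.card_biUnion_le
      have e3 := e1.trans (Nat.add_le_add_left e2 _)
      exact_mod_cast e3
    have ha1 : (1 : ℝ) ≤ a (l + 1) := by exact_mod_cast hpar.a_pos (l + 1)
    have hfew : ((Few g t lam Bad l).card : ℝ) ≤ (((lam - 1) / lam) ^ l / 2 ^ (l + 2)) * (m1 * (a l * b)) := by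
      have e1 := hSPF P k b a g S t lam Bad l hlam hl hsub
      rw [hAl1] at hcard
      push_cast at hcard
      have e2 : (a l : ℝ) * Bad.card ≤ a l * ((((lam - 1) / lam) ^ (l + 1) / 2 ^ (l + 1 + 1)) * (m1 * (a (l + 1) * b))) :=
        mul_le_mul_of_nonneg_left hcard (Nat.cast_nonneg _)
      have e3 := e1.trans e2
      have e4 : (a l : ℝ) * ((((lam - 1) / lam) ^ (l + 1) / 2 ^ (l + 1 + 1)) * (m1 * (a (l + 1) * b))) =
          ((((lam - 1) / lam) ^ l / 2 ^ (l + 2)) * (m1 * (a l * b))) * (a (l + 1) * ((lam - 1) / lam)) := by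
        rw [pow_succ ((lam - 1) / lam) l, show l + 1 + 1 = l + 2 from rfl]; ring
      rw [e4] at e3
      exact le_of_mul_le_mul_right e3 (by positivity)
    have hcap : ∀ q ∈ Icc l k, ((Cap g t E (eps l) ψ' l q).card : ℝ) * (eps l) ^ 2 ≤
        m1 * b * (4 * k * C * K * ((k : ℝ) + 2) ^ 2) := by
      intro q hq
      obtain ⟨hq1, hq2⟩ := Finset.mem_Icc.1 hq
      have e1 := hSPC hCAP hTRH P k b a g S t E l q ψ' (Fintype.card S * k * b * C * K) ((k - l : ℕ) + 1 : ℝ) (z l)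
        (eps l) hrank he0.1 (by positivity) hz0.1.le hq1 hq2 q5
      refine e1.trans ?_
      have e2 : ((k - l : ℕ) + 1 : ℝ) + z l ≤ (k : ℝ) + 2 := by
        have : ((k - l : ℕ) : ℝ) ≤ k := by exact_mod_cast Nat.sub_le k l
        have := hz0.2; have := he0.2; linarith
      have e3 : (((k - l : ℕ) + 1 : ℝ) + z l) ^ 2 ≤ ((k : ℝ) + 2) ^ 2 :=
        pow_le_pow_left₀ (by have := hz0.1; positivity) e2 2
      have e4 : (Fintype.card S : ℝ) ≤ 4 * m1 := by exact_mod_cast hS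
      have e5 : (Fintype.card S : ℝ) * k * b * C * K ≤ 4 * m1 * k * b * C * K := by gcongr
      calc (Fintype.card S : ℝ) * k * b * C * K * (((k - l : ℕ) + 1 : ℝ) + z l) ^ 2
          ≤ (4 * m1 * k * b * C * K) * ((k : ℝ) + 2) ^ 2 := by
            apply mul_le_mul e5 e3 (by positivity) (by positivity)
        _ = m1 * b * (4 * k * C * K * ((k : ℝ) + 2) ^ 2) := by ring
    have hsum : (∑ q ∈ Icc l k, ((Cap g t E (eps l) ψ' l q).card : ℝ)) * (eps l) ^ 2 ≤
        (k + 1 : ℝ) * (m1 * b * (4 * k * C * K * ((k : ℝ) + 2) ^ 2)) := by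
      rw [Finset.sum_mul]
      refine (Finset.sum_le_sum hcap).trans ?_
      rw [Finset.sum_const, nsmul_eq_mul]
      have : ((Icc l k).card : ℝ) ≤ k + 1 := by
        rw [Nat.card_Icc]
        exact_mod_cast (Nat.sub_le (k + 1) l)
      exact mul_le_mul_of_nonneg_right this (by positivity)
    have hcapsum : (∑ q ∈ Icc l k, ((Cap g t E (eps l) ψ' l q).card : ℝ)) ≤
        (((lam - 1) / lam) ^ l / 2 ^ (l + 2)) * (m1 * (a l * b)) := by
      have e1 := hpar.cap l hl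
      have e2 : (k + 1 : ℝ) * (m1 * b * (4 * k * C * K * ((k : ℝ) + 2) ^ 2)) ≤
          ((((lam - 1) / lam) ^ l / 2 ^ (l + 2)) * (m1 * (a l * b))) * (eps l) ^ 2 := by
        have e3 := mul_le_mul_of_nonneg_left e1 (show (0 : ℝ) ≤ m1 * b by positivity)
        calc (k + 1 : ℝ) * (m1 * b * (4 * k * C * K * ((k : ℝ) + 2) ^ 2))
            = m1 * b * ((k + 1 : ℝ) * (4 * k * C * K * ((k : ℝ) + 2) ^ 2)) := by ring
          _ ≤ m1 * b * ((((lam - 1) / lam) ^ l / 2 ^ (l + 2)) * eps l ^ 2 * a l) := e3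
          _ = _ := by ring
      exact le_of_mul_le_mul_right (hsum.trans e2) (by have := he0.1; positivity)
    rw [hAl0]
    push_cast
    calc ((Few g t lam Bad l ∪ (Icc l k).biUnion (fun q => Cap g t E (eps l) ψ' l q)).card : ℝ)
        ≤ _ := hcard1
      _ ≤ (((lam - 1) / lam) ^ l / 2 ^ (l + 2)) * (m1 * (a l * b)) +
          (((lam - 1) / lam) ^ l / 2 ^ (l + 2)) * (m1 * (a l * b)) := add_le_add hfew hcapsum
      _ = ((lam - 1) / lam) ^ l / 2 ^ (l + 1) * (m1 * (a l * b)) := by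
          rw [pow_succ (2 : ℝ) (l + 1)]; ring

theorem inv_zero (hALC : StAlc) (hGEN : StGen) (hDEC : StDec) (hBON : StBon) (hSP1 : StSp1) (hSP3 : StSp3)
    (hSP5 : StSp5) (hSPC : StSpc) (hCAP : StCap) (hTRH : StTrh) (hSPF : StSpf) (hBAS : StBas)
    (g : LG P k b a) (t : S → ℝ) (C K lam : ℝ) (eps tau z : ℕ → ℝ) (s0 : ℕ → ℕ)
    (hpar : Par C K lam k a eps tau z s0) (hk : 1 ≤ k) (hlam : 1 < lam) (hC : 0 < C) (hK : 0 < K)
    (E : Matrix (S × P) (S × P) ℂ) (hrank : (E.rank : ℝ) ≤ Fintype.card S * k * b * C * K)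
    (hflat : ∀ f : S × P → ℂ, E.mulVec f = f → ∀ i : S × P,
      ‖f i‖ ≤ (if g.lev i.2 = 0 then 0 else C * K / a (g.lev i.2)) * n1 f)
    (hS : Fintype.card S ≤ 4 * (univ.filter fun s => t s = 1).card) :
    Inv g t lam E (eps 0) ((k - 0 : ℕ) + 1 : ℝ) (z 0) (((lam - 1) / lam) ^ 0 / 2 ^ (0 + 1)) 0 := by
  have hθ : 0 < (lam - 1) / lam := div_pos (by linarith) (by linarith)
  have key : ∀ m, m ≤ k → Inv g t lam E (eps (k - m)) ((k - (k - m) : ℕ) + 1 : ℝ) (z (k - m))
      (((lam - 1) / lam) ^ (k - m) / 2 ^ (k - m + 1)) (k - m) := by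
    intro m
    induction m with
    | zero =>
      intro _
      have := hBAS P k b a g S t lam E (C * K / a k) (eps k) ((k - k : ℕ) + 1 : ℝ) (z k)
        (((lam - 1) / lam) ^ k / 2 ^ (k + 1)) hk (hpar.flat k hk le_rfl) (by simp) (by positivity) (by
          intro f hf i hi
          have := hflat f hf i
          rw [if_neg (by omega), hi] at this
          exact this)
      exact this
    | succ m ih =>
      intro hm
      have h := ih (by omega)
      have hidx : k - m = (k - (m + 1)) + 1 := by omega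
      rw [hidx] at h
      exact inv_step hALC hGEN hDEC hBON hSP1 hSP3 hSP5 hSPC hCAP hTRH hSPF g t C K lam eps tau z s0 hpar hlam hC hK E
        hrank hS (k - (m + 1)) (by omega) h
  have := key k le_rfl
  rw [Nat.sub_self] at this
  exact this

theorem ColLe.mono {m n : Type} [Fintype m] {M : Matrix m n ℂ} {K K' : ℝ} (h : ColLe M K) (hK : K ≤ K') :
    ColLe M K' := fun j => (h j).trans hK

theorem colLe_nonneg_or {m n : Type} [Fintype m] {M : Matrix m n ℂ} {K : ℝ} (h : ColLe M K) (j : n) : 0 ≤ K :=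
  (Finset.sum_nonneg fun _ _ => norm_nonneg _).trans (h j)

theorem colLe_reindex {m n : Type} [Fintype m] [Fintype n] (e : n ≃ m) {M : Matrix m m ℂ} {K : ℝ} (h : ColLe M K) :
    ColLe (M.submatrix e e) K := by
  intro j
  have := h (e j)
  calc ∑ i, ‖M.submatrix e e i j‖ = ∑ i, ‖M (e i) (e j)‖ := rfl
    _ = ∑ i, ‖M i (e j)‖ := Equiv.sum_comp e (fun i => ‖M i (e j)‖)
    _ ≤ K := this

theorem ft (hTRH : StTrh) (hRKT : StRkt) (hCAP : StCap) (hBON : StBon) (hDEC : StDec) (hPAR : StPar) (hGRA : StGra)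
    (hGEN : StGen) (hALC : StAlc) (hEEE : StEee) (hBAS : StBas) (hSP1 : StSp1) (hSP3 : StSp3) (hSP5 : StSp5)
    (hSPC : StSpc) (hSPF : StSpf) (hFIN : StFin) : StFT := by
  intro r hr K
  obtain ⟨k, a, eps, tau, z, s0, hk, hpar⟩ := hPAR r (max K 1) ((1 + r) / 2) (by linarith) (by linarith)
    (le_max_right _ _)
  obtain ⟨b, P, _, _, hb, ⟨g⟩⟩ := hGRA k a hpar.a_pos
  let e := Fintype.equivFin P
  have hPne : Nonempty P := by
    have h0 := g.card_lev 0 (Nat.zero_le _)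
    have : 0 < a 0 * b := Nat.mul_pos (hpar.a_pos 0) hb
    rw [← h0] at this
    obtain ⟨v, _⟩ := Finset.card_pos.1 this
    exact ⟨v⟩
  have hCK : (1 : ℝ) ≤ max K 1 := le_max_right _ _
  have hcol : ColLe (xmat g r) r := by
    -- from hEEE with S = Unit? direct
    have h := (hEEE hRKT P k b a g Unit (fun _ => 1) r 0 0 hpar.a_pos (by linarith) le_rfl (fun _ => by norm_num)
      (fun j => by simp) (by simp)).2.2.1
    intro v
    have h1 := h ((), v)
    rw [Fintype.sum_prod_type] at h1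
    simpa [blk] using h1
  refine ⟨Fintype.card P, (xmat g r).submatrix e.symm e.symm, Fintype.card_pos, colLe_reindex e.symm hcol, ?_⟩
  intro S _ _ t ht hex hS Y Z hY hZ hidem hone
  -- transport
  let E2 : S × P ≃ S × Fin (Fintype.card P) := Equiv.prodCongr (Equiv.refl S) e
  set Y' : Matrix (S × P) (S × P) ℂ := Y.submatrix E2 E2 with hY'
  set Z' : Matrix (S × P) (S × P) ℂ := Z.submatrix E2 E2 with hZ'
  have hblk : (blk t ((xmat g r).submatrix e.symm e.symm)).submatrix E2 E2 = blk t (xmat g r) := by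
    ext i j
    simp [blk, E2]
  have hYc : ColLe Y' (max K 1) := (colLe_reindex E2 hY).mono (le_max_left _ _)
  have hZc : ColLe Z' (max K 1) := (colLe_reindex E2 hZ).mono (le_max_left _ _)
  have hmul : (blk t ((xmat g r).submatrix e.symm e.symm) * Y).submatrix E2 E2 = blk t (xmat g r) * Y' := by
    rw [← hblk, hY', Matrix.submatrix_mul_equiv]
  have hid' : (blk t (xmat g r) * Y') * (blk t (xmat g r) * Y') = blk t (xmat g r) * Y' := by
    rw [← hmul, Matrix.submatrix_mul_equiv, hidem]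
  have hone' : 1 - blk t (xmat g r) * Y' = (1 - blk t (xmat g r)) * Z' := by
    rw [← hmul]
    have h1 : (1 : Matrix (S × P) (S × P) ℂ) = (1 : Matrix _ _ ℂ).submatrix E2 E2 := by
      rw [Matrix.submatrix_one_equiv]
    have hs : ∀ A B : Matrix (S × Fin (Fintype.card P)) (S × Fin (Fintype.card P)) ℂ,
        A.submatrix E2 E2 - B.submatrix E2 E2 = (A - B).submatrix E2 E2 := fun A B => rfl
    rw [h1, hs, hone, ← hblk, hs, hZ', Matrix.submatrix_mul_equiv]
  obtain ⟨hflat, hrank, -, hEcol⟩ := hEEE hRKT P k b a g S t r (max K 1) Y' hpar.a_pos (by linarith) (by linarith)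
    ht hYc hid'
  have hinv := inv_zero hALC hGEN hDEC hBON hSP1 hSP3 hSP5 hSPC hCAP hTRH hSPF hBAS g t r (max K 1) ((1 + r) / 2) eps tau z
    s0 hpar hk (by linarith) (by linarith) (by linarith) _ hrank hflat hS
  exact hFIN hGEN hALC P k b a g S t r (max K 1) ((1 + r) / 2) eps tau z s0 Y' Z' _ _ _ hb (by linarith) (by linarith)
    hCK hpar hex (by norm_num) hEcol hZc hone' hid' hinv

end Pool.Agent.Helper63.XR
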