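import Pool.Agent.Helper63.XR.AllA
import Pool.Agent.Helper63.XR.StB

/-!
# Project XR: assembly, transfer to the crossed products
-/

set_option autoImplicit false

namespace Pool.Agent.Helper63.XR

open Finset Filter Topology MeasureTheory

section colLe
variable {m n l : Type} [Fintype m] [Fintype n] [Fintype l]

theorem colLe_add {A B : Matrix m n ℂ} {a b : ℝ} (hA : ColLe A a) (hB : ColLe B b) : ColLe (A + B) (a + b) := by
  intro j
  calc ∑ i, ‖(A + B) i j‖ ≤ ∑ i, (‖A i j‖ + ‖B i j‖) := Finset.sum_le_sum fun i _ => norm_add_le _ _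
    _ = ∑ i, ‖A i j‖ + ∑ i, ‖B i j‖ := Finset.sum_add_distrib
    _ ≤ a + b := add_le_add (hA j) (hB j)

theorem colLe_neg {A : Matrix m n ℂ} {a : ℝ} (hA : ColLe A a) : ColLe (-A) a := by
  intro j
  have := hA j
  simpa using this

theorem colLe_sub {A B : Matrix m n ℂ} {a b : ℝ} (hA : ColLe A a) (hB : ColLe B b) : ColLe (A - B) (a + b) := by
  rw [sub_eq_add_neg]
  exact colLe_add hA (colLe_neg hB)

theorem colLe_mul {A : Matrix m n ℂ} {B : Matrix n l ℂ} {a b : ℝ} (ha : 0 ≤ a) (hA : ColLe A a) (hB : ColLe B b) :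
    ColLe (A * B) (a * b) := by
  intro j
  calc ∑ i, ‖(A * B) i j‖ ≤ ∑ i, ∑ q, ‖A i q‖ * ‖B q j‖ := by
        refine Finset.sum_le_sum fun i _ => ?_
        rw [Matrix.mul_apply]
        refine (norm_sum_le _ _).trans (le_of_eq (Finset.sum_congr rfl fun q _ => norm_mul _ _))
    _ = ∑ q, (∑ i, ‖A i q‖) * ‖B q j‖ := by
        rw [Finset.sum_comm]
        exact Finset.sum_congr rfl fun q _ => by rw [Finset.sum_mul]
    _ ≤ ∑ q, a * ‖B q j‖ := Finset.sum_le_sum fun q _ => mul_le_mul_of_nonneg_right (hA q) (norm_nonneg _)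
    _ = a * ∑ q, ‖B q j‖ := by rw [Finset.mul_sum]
    _ ≤ a * b := mul_le_mul_of_nonneg_left (hB j) ha

theorem colLe_one [DecidableEq m] : ColLe (1 : Matrix m m ℂ) 1 := by
  intro j
  have : ∀ i, ‖(1 : Matrix m m ℂ) i j‖ = if i = j then 1 else 0 := by
    intro i
    rw [Matrix.one_apply]
    split_ifs <;> simp
  simp [this]

end colLe

theorem cs_mono {X : Type} [TopologicalSpace X] {h : X ≃ₜ X} {g : FS X} {c c' : ℝ} (hc : cs h g c) (hcc : c ≤ c') :
    cs h g c' := fun x => (hc x).trans hcc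

theorem th_add {X : Type} [TopologicalSpace X] (h : X ≃ₜ X) (t : X) (M : ℕ) (g g' : FS X) :
    th h t M (g + g') = th h t M g + th h t M g' := by
  ext i j
  simp only [th, Matrix.add_apply]
  rw [Finsupp.sum_add_index']
  · intro n; simp
  · intro n f f'; split_ifs <;> simp

theorem th_sub {X : Type} [TopologicalSpace X] (h : X ≃ₜ X) (t : X) (M : ℕ) (g g' : FS X) :
    th h t M (g - g') = th h t M g - th h t M g' := by
  have := th_add h t M (g - g') g'
  have e : g - g' + g' = g := by ext n x; simp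
  rw [e] at this
  rw [this, add_sub_cancel_right]

/-- the purely algebraic estimate for the approximate idempotent -/
theorem approx_idem {M : ℕ} (X W T1 T2 T3 GE T4 : Matrix (Fin M) (Fin M) ℂ) (R W0 ε δ' : ℝ) (hR : 0 ≤ R) (hW0 : 0 ≤ W0)
    (hε : 0 < ε) (hε1 : ε ≤ 1) (hX : ColLe X R) (hW : ColLe W W0) (h1 : ColLe (T1 - X * X) ε) (h2 : ColLe (T2 - X * W) ε)
    (h3 : ColLe (T3 - T1 * W) ε) (hGE : GE = X + T2 - T3) (h4 : ColLe (T4 - GE * GE) ε) (h5 : ColLe (T4 - GE) (δ' + ε)) :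
    ColLe ((X * (1 + (1 - X) * W)) * (X * (1 + (1 - X) * W)) - X * (1 + (1 - X) * W))
      (δ' + ε * (3 + W0 + 2 * ((R + R * W0 + R * (R * W0)) * (2 + W0)) + (2 + W0) ^ 2 + 1)) := by
  set E := X * (1 + (1 - X) * W) with hE
  set B := GE - E with hB
  have hBe : B = (T2 - X * W) - (T3 - T1 * W) - (T1 - X * X) * W := by
    rw [hB, hGE, hE]; noncomm_ring
  have hBc : ColLe B (ε * (2 + W0)) := by
    rw [hBe]
    have := colLe_sub (colLe_sub h2 h3) (colLe_mul hε.le h1 hW)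
    exact this.mono (by nlinarith)
  have hEc : ColLe E (R + R * W0 + R * (R * W0)) := by
    have e1 : E = X + X * W - X * (X * W) := by rw [hE]; noncomm_ring
    rw [e1]
    exact colLe_sub (colLe_add hX (colLe_mul hR hX hW)) (colLe_mul hR hX (colLe_mul hR hX hW))
  have hGEe : GE = E + B := by rw [hB]; abel
  have hfin : E * E - E = (T4 - GE) - (E * B + B * E) - B * B - (T4 - GE * GE) + B := by
    rw [hGEe]; noncomm_ring
  rw [hfin]
  have hE0 : 0 ≤ R + R * W0 + R * (R * W0) := by positivity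
  have hb0 : 0 ≤ ε * (2 + W0) := by positivity
  have := colLe_add (colLe_sub (colLe_sub (colLe_sub h5 (colLe_add (colLe_mul hE0 hEc hBc) (colLe_mul hb0 hBc hEc)))
    (colLe_mul hb0 hBc hBc)) h4) hBc
  refine this.mono ?_
  have e2 : ε * (2 + W0) * (ε * (2 + W0)) ≤ ε * (2 + W0) ^ 2 := by
    have : ε * (2 + W0) * (ε * (2 + W0)) = ε * (ε * (2 + W0) ^ 2) := by ring
    rw [this]
    have h2 : ε * (2 + W0) ^ 2 ≤ (2 + W0) ^ 2 := by
      have : 0 ≤ (2 + W0) ^ 2 := by positivity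
      nlinarith
    exact mul_le_mul_of_nonneg_left h2 hε.le
  nlinarith

theorem transfer (hFT : StFT) (hMUL : StMul) (hNRM : StNrm) (hBLK : StBlk) (hXNM : StXnm) (hNEW : StNew) (hNEM : StNem)
    (hCMP : StCmp) (hEVM : StEvm) (hRA : StRa) (hRB : StRb) (hRC : StRc) (hNUB : StNub) (hNLB : StNlb)
    (X : Type) [TopologicalSpace X] [CompactSpace X] (h : X ≃ₜ X) (hgeo : Geo h) (A : Type) [NormedRing A]
    [NormedAlgebra ℂ A] (j : C(X, ℂ) →ₐ[ℂ] A) (U : Aˣ) (hA : IsF1 h A j U) (r : ℝ) (hr : 1 < r) (K : ℝ) :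
    ∃ x : A, ‖x‖ ≤ r ∧ ¬ ∃ y z : A, ‖y‖ ≤ K ∧ ‖z‖ ≤ K ∧ (x * y) * (x * y) = x * y ∧ 1 - x * y = (1 - x) * z := by
  set K0 : ℝ := max K 0 with hK0
  have hK00 : 0 ≤ K0 := le_max_right _ _
  set W0 : ℝ := 2 * K0 + 2 with hW0
  set R0 : ℝ := r + 1 with hR0
  set K2 : ℝ := 1 + (1 + R0) * W0 with hK2
  have hW0p : 0 ≤ W0 := by positivity
  have hR0p : 0 ≤ R0 := by linarith
  obtain ⟨K', δ, hδ, hnem⟩ := hNEM hNEW K2
  obtain ⟨N, x0, hN, hx0, hft⟩ := hFT r hr K'
  obtain ⟨t, f, hf01, hft1, hdis, hne, hcount⟩ := hgeo N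
  set g0 := gx h x0 (cx f) with hg0
  obtain ⟨evadd, evsub, evmul⟩ := hEVM X h A j U hA
  have hevn : ∀ g : FS X, ‖ev j U g‖ = nrm h g := hA.norm_eq
  refine ⟨ev j U g0, ?_, ?_⟩
  · rw [hevn]
    exact hNUB hRC hRB hRA X h g0 r (by linarith) (hXNM X h N x0 f r (by linarith) hx0 hf01 hdis)
  rintro ⟨y, z, hy, hz, hid, hone⟩
  set x := ev j U g0 with hx
  set w := y - z with hw
  have hwn : ‖w‖ < 2 * K0 + 1 := by
    have h1 := norm_sub_le y z
    have h2 : K ≤ K0 := le_max_left _ _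
    rw [hw]; linarith
  have hxw : x * w = 1 - z := by
    have : 1 - x * y = z - x * z := by rw [hone]; noncomm_ring
    rw [hw, mul_sub]
    rw [sub_eq_sub_iff_add_eq_add] at this ⊢
    rw [this, add_comm]
  have hyw : y = 1 + (1 - x) * w := by
    have h2 : (1 - x) * w = w - x * w := by noncomm_ring
    rw [h2, hxw, hw]; abel
  -- the function of w'
  set F : A → A := fun w' => (x + x * w' - x * x * w') * (x + x * w' - x * x * w') - (x + x * w' - x * x * w') with hF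
  have hFw : F w = 0 := by
    have e1 : x + x * w - x * x * w = x * y := by rw [hyw]; noncomm_ring
    simp only [hF]
    rw [e1, hid, sub_self]
  have hFc : Continuous F := by
    simp only [hF]
    fun_prop
  set T : ℝ := 3 + W0 + 2 * ((R0 + R0 * W0 + R0 * (R0 * W0)) * (2 + W0)) + (2 + W0) ^ 2 + 1 with hT
  have hTp : 0 < T := by positivity
  have hopen : IsOpen {w' : A | ‖w'‖ < 2 * K0 + 1 ∧ ‖F w'‖ < δ / 2} := by
    refine IsOpen.inter ?_ ?_
    · exact isOpen_lt continuous_norm continuous_const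
    · exact isOpen_lt (continuous_norm.comp hFc) continuous_const
  obtain ⟨_, ⟨gw, rfl⟩, hgw⟩ := hA.dense.exists_mem_open hopen ⟨w, hwn, by rw [hFw, norm_zero]; linarith⟩
  change ‖ev j U gw‖ < 2 * K0 + 1 ∧ ‖F (ev j U gw)‖ < δ / 2 at hgw
  set gE := g0 + tw h g0 gw - tw h (tw h g0 g0) gw with hgE
  set G := tw h gE gE - gE with hG
  have hevE : ev j U gE = x + x * ev j U gw - x * x * ev j U gw := by
    rw [hgE, evsub, evadd, evmul, evmul, evmul]
  have hevG : ev j U G = F (ev j U gw) := by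
    rw [hG, evsub, evmul, hevE]
  have hGn : nrm h G < δ / 2 := by rw [← hevn, hevG]; exact hgw.2
  have hwn' : nrm h gw < 2 * K0 + 1 := by rw [← hevn]; exact hgw.1
  have hGc : cs h G (δ / 2) := cs_mono (hNLB X h G).1 hGn.le
  have hwc : cs h gw (2 * K0 + 1) := cs_mono (hNLB X h gw).1 hwn'.le
  have hxc : cs h g0 r := hXNM X h N x0 f r (by linarith) hx0 hf01 hdis
  set ε : ℝ := min 1 (δ / (2 * T)) with hε
  have hεp : 0 < ε := by
    rw [hε]; exact lt_min one_pos (by positivity)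
  have hε1 : ε ≤ 1 := min_le_left _ _
  have hεT : ε * T ≤ δ / 2 := by
    have : ε ≤ δ / (2 * T) := min_le_right _ _
    calc ε * T ≤ δ / (2 * T) * T := mul_le_mul_of_nonneg_right this hTp.le
      _ = δ / 2 := by field_simp
  have E1 := hNRM X h t G (δ / 2) ε hεp hGc
  have E2 := hNRM X h t gw (2 * K0 + 1) ε hεp hwc
  have E3 := hNRM X h t g0 r ε hεp hxc
  have E4 := hMUL X h t g0 g0 ε hεp
  have E5 := hMUL X h t g0 gw ε hεp
  have E6 := hMUL X h t (tw h g0 g0) gw ε hεp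
  have E7 := hMUL X h t gE gE ε hεp
  have E8 := hBLK X h t N x0 f hN hf01 hft1 hdis hcount
  haveI := hne
  obtain ⟨M, hM⟩ := (E1.and (E2.and (E3.and (E4.and (E5.and (E6.and (E7.and E8))))))).exists
  obtain ⟨m1, m2, m3, m4, m5, m6, m7, S, iS, dS, τ, ι, hι, hτ, hτ1, hcard, hbl, hsupp⟩ := hM
  set Xm := th h t M g0 with hXm
  set Wm := th h t M gw with hWm
  have hXc : ColLe Xm R0 := m3.mono (by linarith)
  have hWc : ColLe Wm W0 := m2.mono (by linarith)
  have hGEm : th h t M gE = Xm + th h t M (tw h g0 gw) - th h t M (tw h (tw h g0 g0) gw) := by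
    rw [hgE, th_sub, th_add]
  have hGm : th h t M G = th h t M (tw h gE gE) - th h t M gE := by rw [hG, th_sub]
  rw [hGm] at m1
  have hidm := approx_idem Xm Wm (th h t M (tw h g0 g0)) (th h t M (tw h g0 gw)) (th h t M (tw h (tw h g0 g0) gw))
    (th h t M gE) (th h t M (tw h gE gE)) R0 W0 ε (δ / 2) hR0p hW0p hεp hε1 hXc hWc m4 m5 m6 hGEm m7 m1
  have hY : ColLe (1 + (1 - Xm) * Wm) K2 :=
    colLe_add colLe_one (colLe_mul (by positivity) (colLe_sub colLe_one hXc) hWc)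
  have hZ : ColLe (1 - Xm * Wm) K2 := by
    have := colLe_sub colLe_one (colLe_mul hR0p hXc hWc)
    exact this.mono (by nlinarith)
  have hX2 : ColLe Xm K2 := hXc.mono (by nlinarith)
  obtain ⟨y', z', hy', hz', hid', hone'⟩ := hnem (Fin M) Xm (1 + (1 - Xm) * Wm) (1 - Xm * Wm) hX2 hY hZ
    (by noncomm_ring) (hidm.mono (by linarith))
  obtain ⟨Y'', Z'', hY'', hZ'', hid'', hone''⟩ := hCMP (S × Fin N) (Fin M) ι Xm y' z' K' hι hsupp hy' hz' hid' hone'
  have hsub : Xm.submatrix ι ι = blk τ x0 := by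
    ext p p'
    exact hbl p p'
  rw [hsub] at hid'' hone''
  exact hft S τ hτ hτ1 hcard Y'' Z'' hY'' hZ'' hid'' hone''

end Pool.Agent.Helper63.XR
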