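import Mathlib

/-!
# MP_c973ff_an: the definitions of the statement

`F^1_r(ℤ, X, h)` for a homeomorphism `h` of a compact space `X` (`p = 1`), the exchange property and its uniform failure.
-/

set_option autoImplicit false

namespace Pool.Agent.Helper63.XRS

open MeasureTheory
open scoped BoundedContinuousFunction

/-- `L^1(Y, ν)`, complex valued -/
def L1 {Y : Type} {mY : MeasurableSpace Y} (ν : Measure Y) : Type := Lp ℂ 1 ν

noncomputable instance instL1 {Y : Type} {mY : MeasurableSpace Y} (ν : Measure Y) : NormedAddCommGroup (L1 ν) :=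
  (inferInstance : NormedAddCommGroup (Lp ℂ 1 ν))

noncomputable instance instL1' {Y : Type} {mY : MeasurableSpace Y} (ν : Measure Y) : NormedSpace ℂ (L1 ν) :=
  (inferInstance : NormedSpace ℂ (Lp ℂ 1 ν))

/-- finite sums `∑ f_n u^n` with `f_n ∈ C(X)` -/
abbrev FS (X : Type) [TopologicalSpace X] : Type := ℤ →₀ C(X, ℂ)

/-- `f ∘ h^n` -/
noncomputable def cmp {X : Type} [TopologicalSpace X] (h : X ≃ₜ X) (n : ℤ) (f : C(X, ℂ)) : C(X, ℂ) :=
  f.comp ⟨(h ^ n : X ≃ₜ X), (h ^ n : X ≃ₜ X).continuous⟩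

/-- a unital (this is nondegeneracy) contractive representation of `C(X)` by bounded operators of `L^1(Y, ν)`, `ν` sigma-finite -/
structure Rep (X : Type) [TopologicalSpace X] [CompactSpace X] where
  /-- the space -/
  Y : Type
  /-- its measurable sets -/
  mY : MeasurableSpace Y
  /-- the measure -/
  ν : Measure Y
  sf : SigmaFinite ν
  /-- the representation -/
  π : C(X, ℂ) → L1 ν → L1 ν
  add_right : ∀ f ξ η, π f (ξ + η) = π f ξ + π f η
  smul_right : ∀ f (c : ℂ) ξ, π f (c • ξ) = c • π f ξ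
  add_left : ∀ f g ξ, π (f + g) ξ = π f ξ + π g ξ
  smul_left : ∀ (c : ℂ) f ξ, π (c • f) ξ = c • π f ξ
  mul : ∀ f g ξ, π (f * g) ξ = π f (π g ξ)
  one : ∀ ξ, π 1 ξ = ξ
  contr : ∀ f ξ, ‖π f ξ‖ ≤ ‖f‖ * ‖ξ‖

/-- the value at `m` of `(∑ σ_π(g_n) u^n) ξ`, for `ξ ∈ l^1(ℤ, L^1(Y, ν))` of finite support: `∑_n π(g_n ∘ h^m) ξ(m - n)` -/
noncomputable def act {X : Type} [TopologicalSpace X] [CompactSpace X] (h : X ≃ₜ X) (ρ : Rep X) (g : FS X)
    (ξ : ℤ →₀ L1 ρ.ν) (m : ℤ) : L1 ρ.ν :=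
  g.sum fun n f => ρ.π (cmp h m f) (ξ (m - n))

/-- the norm of a finite sum in `F^1_r(ℤ, X, h)`: the least `c ≥ 0` with `‖(∑ σ_π(g_n) u^n) ξ‖ ≤ c ‖ξ‖` for all representations
`π` and all `ξ` of finite support in `l^1(ℤ, L^1(Y, ν))` -/
noncomputable def nrm {X : Type} [TopologicalSpace X] [CompactSpace X] (h : X ≃ₜ X) (g : FS X) : ℝ :=
  sInf {c : ℝ | 0 ≤ c ∧ ∀ (ρ : Rep X) (ξ : ℤ →₀ L1 ρ.ν), ∑' m : ℤ, ‖act h ρ g ξ m‖ ≤ c * ∑' m : ℤ, ‖ξ m‖}

/-- `A` is the Banach algebra `F^1_r(ℤ, X, h)`, the completion of the algebra of the finite sums `∑ f_n u^n` in the norm `nrm`: `A` is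
complete, contains a copy `j` of `C(X)` and a unit `U` with `U j(f) = j(f ∘ h^(-1)) U`, the finite sums have the norm `nrm` and are
dense -/
structure IsF1 {X : Type} [TopologicalSpace X] [CompactSpace X] (h : X ≃ₜ X) (A : Type) [NormedRing A]
    [NormedAlgebra ℂ A] (j : C(X, ℂ) → A) (U : Aˣ) : Prop where
  complete : CompleteSpace A
  map_add : ∀ f g, j (f + g) = j f + j g
  map_smul : ∀ (c : ℂ) f, j (c • f) = c • j f
  map_mul : ∀ f g, j (f * g) = j f * j g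
  map_one : j 1 = 1
  cov : ∀ f, (U : A) * j f = j (cmp h (-1) f) * U
  norm_eq : ∀ g : FS X, ‖g.sum fun n f => j f * ((U ^ n : Aˣ) : A)‖ = nrm h g
  dense : Dense (Set.range fun g : FS X => g.sum fun n f => j f * ((U ^ n : Aˣ) : A))

/-- the exchange property of one element `x` of a unital ring `R`: there is an idempotent `e ∈ x R` with `1 - e ∈ (1 - x) R` -/
def Exch (R : Type) [Ring R] (x : R) : Prop := ∃ e : R, e * e = e ∧ (∃ y, e = x * y) ∧ ∃ z, 1 - e = (1 - x) * z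

/-- the exchange property holds for `x` with constant `K` -/
def ExchLe {A : Type} [NormedRing A] (x : A) (K : ℝ) : Prop :=
  ∃ y z : A, ‖y‖ ≤ K ∧ ‖z‖ ≤ K ∧ (x * y) * (x * y) = x * y ∧ 1 - x * y = (1 - x) * z

/-- for every `r > 1` exchange fails in `A` uniformly on the ball of radius `r`, and the Banach algebra `ℕ →ᵇ A` of the bounded sequences in
`A` has an element of norm at most `r` without the exchange property -/
def UniformlyFails (A : Type) [NormedRing A] : Prop :=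
  ∀ r : ℝ, 1 < r → (∀ K : ℝ, ∃ x : A, ‖x‖ ≤ r ∧ ¬ ExchLe x K) ∧ ∃ x : ℕ →ᵇ A, ‖x‖ ≤ r ∧ ¬ Exch (ℕ →ᵇ A) x

/-- `F^1_r(ℤ, X, h)` exists -/
def ExistsF1 {X : Type} [TopologicalSpace X] [CompactSpace X] (h : X ≃ₜ X) : Prop :=
  ∃ (A : Type) (_ : NormedRing A) (_ : NormedAlgebra ℂ A) (j : C(X, ℂ) → A) (U : Aˣ), IsF1 h A j U

/-- exchange fails uniformly in `F^1_r(ℤ, X, h)` -/
def FailsF1 {X : Type} [TopologicalSpace X] [CompactSpace X] (h : X ≃ₜ X) : Prop :=
  ExistsF1 h ∧ ∀ (A : Type) [NormedRing A] [NormedAlgebra ℂ A] (j : C(X, ℂ) → A) (U : Aˣ), IsF1 h A j U →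
    UniformlyFails A

/-- every orbit is dense -/
def Minimal {X : Type} [TopologicalSpace X] (h : X ≃ₜ X) : Prop :=
  ∀ x, Dense (Set.range fun n : ℤ => (h ^ n : X ≃ₜ X) x)

end Pool.Agent.Helper63.XRS
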