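import Pool.Agent.Helper63.XR.Fin
import Pool.Agent.Helper63.XR.Stmt

/-!
# Project XR: the two forms of the definitions agree
-/

set_option autoImplicit false

namespace Pool.Agent.Helper63.XRS

open MeasureTheory
open scoped BoundedContinuousFunction

variable {X : Type} [TopologicalSpace X] [CompactSpace X]

/-- one operator -/
noncomputable def opOld (ρ : Rep X) (f : C(X, ℂ)) : Lp ℂ 1 ρ.ν →L[ℂ] Lp ℂ 1 ρ.ν :=
  LinearMap.mkContinuous
    { toFun := fun ξ => (ρ.π f ξ : L1 ρ.ν)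
      map_add' := fun ξ η => ρ.add_right f ξ η
      map_smul' := fun c ξ => ρ.smul_right f c ξ } ‖f‖ (fun ξ => ρ.contr f ξ)

theorem opOld_apply (ρ : Rep X) (f : C(X, ℂ)) (ξ : Lp ℂ 1 ρ.ν) : opOld ρ f ξ = (ρ.π f ξ : L1 ρ.ν) := rfl

/-- the representation as an algebra homomorphism -/
noncomputable def toOld (ρ : Rep X) : XR.Rep X where
  Y := ρ.Y
  mY := ρ.mY
  ν := ρ.ν
  sf := ρ.sf
  π := AlgHom.ofLinearMap
    { toFun := opOld ρ
      map_add' := fun f g => by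
        refine ContinuousLinearMap.ext fun ξ => ?_
        exact ρ.add_left f g ξ
      map_smul' := fun c f => by
        refine ContinuousLinearMap.ext fun ξ => ?_
        exact ρ.smul_left c f ξ }
    (by
      refine ContinuousLinearMap.ext fun ξ => ?_
      exact ρ.one ξ)
    (by
      intro f g
      refine ContinuousLinearMap.ext fun ξ => ?_
      exact ρ.mul f g ξ)
  contr := fun f => LinearMap.mkContinuous_norm_le _ (norm_nonneg f) (fun ξ => ρ.contr f ξ)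

/-- the representation as a family of maps -/
noncomputable def toNew (ρ : XR.Rep X) : Rep X where
  Y := ρ.Y
  mY := ρ.mY
  ν := ρ.ν
  sf := ρ.sf
  π := fun f ξ => (ρ.π f (ξ : Lp ℂ 1 ρ.ν) : Lp ℂ 1 ρ.ν)
  add_right := fun f ξ η => (ρ.π f).map_add ξ η
  smul_right := fun f c ξ => (ρ.π f).map_smul c ξ
  add_left := fun f g ξ => by
    have := congrArg (fun T : Lp ℂ 1 ρ.ν →L[ℂ] Lp ℂ 1 ρ.ν => T (ξ : Lp ℂ 1 ρ.ν)) (map_add ρ.π f g)
    exact this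
  smul_left := fun c f ξ => by
    have := congrArg (fun T : Lp ℂ 1 ρ.ν →L[ℂ] Lp ℂ 1 ρ.ν => T (ξ : Lp ℂ 1 ρ.ν)) (map_smul ρ.π c f)
    exact this
  mul := fun f g ξ => by
    have := congrArg (fun T : Lp ℂ 1 ρ.ν →L[ℂ] Lp ℂ 1 ρ.ν => T (ξ : Lp ℂ 1 ρ.ν)) (map_mul ρ.π f g)
    exact this
  one := fun ξ => by
    have := congrArg (fun T : Lp ℂ 1 ρ.ν →L[ℂ] Lp ℂ 1 ρ.ν => T (ξ : Lp ℂ 1 ρ.ν)) (map_one ρ.π)
    exact this
  contr := fun f ξ => ((ρ.π f).le_opNorm ξ).trans (mul_le_mul_of_nonneg_right (ρ.contr f) (norm_nonneg _))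

theorem act_toNew (h : X ≃ₜ X) (ρ : XR.Rep X) (g : FS X) (ξ : ℤ →₀ Lp ℂ 1 ρ.ν) (m : ℤ) :
    act h (toNew ρ) g (show ℤ →₀ L1 ρ.ν from ξ) m = XR.act h ρ g ξ m := rfl

theorem act_toOld (h : X ≃ₜ X) (ρ : Rep X) (g : FS X) (ξ : ℤ →₀ L1 ρ.ν) (m : ℤ) :
    XR.act h (toOld ρ) g (show ℤ →₀ Lp ℂ 1 ρ.ν from ξ) m = act h ρ g ξ m := rfl

theorem nrm_eq (h : X ≃ₜ X) (g : FS X) : nrm h g = XR.nrm h g := by
  unfold nrm XR.nrm
  congr 1
  ext c
  constructor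
  · rintro ⟨h0, h1⟩
    exact ⟨h0, fun ρ ξ => h1 (toNew ρ) (show ℤ →₀ L1 ρ.ν from ξ)⟩
  · rintro ⟨h0, h1⟩
    exact ⟨h0, fun ρ ξ => h1 (toOld ρ) (show ℤ →₀ Lp ℂ 1 ρ.ν from ξ)⟩

theorem isF1_old (h : X ≃ₜ X) (A : Type) [NormedRing A] [NormedAlgebra ℂ A] (j : C(X, ℂ) → A) (U : Aˣ)
    (hA : IsF1 h A j U) : ∃ j' : C(X, ℂ) →ₐ[ℂ] A, XR.IsF1 h A j' U := by
  refine ⟨AlgHom.ofLinearMap { toFun := j, map_add' := hA.map_add, map_smul' := hA.map_smul } hA.map_one hA.map_mul,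
    hA.complete, hA.cov, ?_, hA.dense⟩
  intro g
  rw [← nrm_eq]
  exact hA.norm_eq g

theorem isF1_new (h : X ≃ₜ X) (A : Type) [NormedRing A] [NormedAlgebra ℂ A] (j : C(X, ℂ) →ₐ[ℂ] A) (U : Aˣ)
    (hA : XR.IsF1 h A j U) : IsF1 h A (fun f => j f) U := by
  refine ⟨hA.complete, map_add j, map_smul j, map_mul j, map_one j, hA.cov, ?_, hA.dense⟩
  intro g
  rw [nrm_eq]
  exact hA.norm_eq g

theorem failsF1_of (h : X ≃ₜ X) (hf : XR.Fails h) : FailsF1 h := by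
  obtain ⟨⟨A, i1, i2, j, U, hA⟩, hall⟩ := hf
  refine ⟨⟨A, i1, i2, fun f => j f, U, isF1_new h A j U hA⟩, ?_⟩
  intro A _ _ j U hA r hr
  obtain ⟨j', hA'⟩ := isF1_old h A j U hA
  exact hall A j' U hA' r hr

theorem cantor (X : Type) [TopologicalSpace X] [TopologicalSpace.MetrizableSpace X] [CompactSpace X]
    [TotallyDisconnectedSpace X] [Infinite X] (h : X ≃ₜ X) (hmin : Minimal h) : FailsF1 h := by
  let _ : MetricSpace X := TopologicalSpace.metrizableSpaceMetric X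
  exact failsF1_of h (XR.cantor X h hmin)

theorem rotation (θ : ℝ) (hθ : Irrational θ) : FailsF1 (Homeomorph.mulLeft (Circle.exp (2 * Real.pi * θ))) :=
  failsF1_of _ (XR.rotation θ hθ)

end Pool.Agent.Helper63.XRS
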