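import Mathlib

/-!
# Project XR (MP_c973ff_an): uniform exchange fails for the L^1 crossed products.  Definitions of the finite part
-/

set_option autoImplicit false

namespace Pool.Agent.Helper63.XR

open Finset

/-- the column sums of `|M|` are at most `K` (the norm of `M` as an operator on `l^1` is at most `K`) -/
def ColLe {m n : Type} [Fintype m] (M : Matrix m n ℂ) (K : ℝ) : Prop := ∀ j, ∑ i, ‖M i j‖ ≤ K

/-- the `l^1` norm of a vector -/
noncomputable def n1 {J : Type} [Fintype J] (f : J → ℂ) : ℝ := ∑ j, ‖f j‖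

/-- the pairing of a real vector with a complex vector -/
noncomputable def pr {J : Type} [Fintype J] (φ : J → ℝ) (f : J → ℂ) : ℂ := ∑ j, (φ j : ℂ) * f j

/-- the `n`-th generation of descendants of `t` -/
def gen {P : Type} [DecidableEq P] (ch : P → Finset P) (t : P) : ℕ → Finset P
  | 0 => {t}
  | n + 1 => (gen ch t n).biUnion ch

/-- layered graphs: layers `0, ..., k`, a vertex of layer `l` has `a (l+1)` children (in layer `l+1`) and at most `a (l-1)`
parents, layer `l` has `a l * b` vertices, two vertices share at most one child, the tree of descendants of a vertex has no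
collision -/
structure LG (P : Type) [Fintype P] [DecidableEq P] (k b : ℕ) (a : ℕ → ℕ) where
  /-- layer -/
  lev : P → ℕ
  /-- children -/
  ch : P → Finset P
  lev_le : ∀ v, lev v ≤ k
  ch_lev : ∀ v, ∀ c ∈ ch v, lev c = lev v + 1
  card_lev : ∀ l, l ≤ k → (univ.filter fun v => lev v = l).card = a l * b
  card_ch : ∀ v, lev v < k → (ch v).card = a (lev v + 1)
  card_par : ∀ c, (univ.filter fun v => c ∈ ch v).card ≤ a (lev c - 1)
  share : ∀ u v, u ≠ v → (ch u ∩ ch v).card ≤ 1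
  tree : ∀ t n u v, u ∈ gen ch t n → v ∈ gen ch t n → u ≠ v → Disjoint (ch u) (ch v)

/-- the matrix `x` of a layered graph: `x e_v = (C / a (l+1)) ∑_(c child of v) e_c` for `v` in layer `l` -/
noncomputable def xmat {P : Type} [Fintype P] [DecidableEq P] {k b : ℕ} {a : ℕ → ℕ} (g : LG P k b a) (C : ℝ) :
    Matrix P P ℂ :=
  fun c v => if c ∈ g.ch v then ((C / a (g.lev c) : ℝ) : ℂ) else 0

/-- the block diagonal matrix with the blocks `t s * x0` -/
noncomputable def blk {S P : Type} [DecidableEq S] (t : S → ℝ) (x0 : Matrix P P ℂ) : Matrix (S × P) (S × P) ℂ :=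
  fun i j => if i.1 = j.1 then (t i.1 : ℂ) * x0 i.2 j.2 else 0

section
variable {P : Type} [Fintype P] [DecidableEq P] {k b : ℕ} {a : ℕ → ℕ} {S : Type} [Fintype S] [DecidableEq S]

open Classical in
/-- the vertices of layer `l` in the blocks with `t s = 1` -/
noncomputable def Al (g : LG P k b a) (t : S → ℝ) (l : ℕ) : Finset (S × P) :=
  univ.filter fun j => t j.1 = 1 ∧ g.lev j.2 = l

/-- the children of `j` outside `Bad` -/
def Gs (g : LG P k b a) (Bad : Finset (S × P)) (j : S × P) : Finset (S × P) :=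
  ((g.ch j.2).image fun c => (j.1, c)) \ Bad

/-- the weight: `A / (lam * n)` if it is at most one and zero otherwise -/
noncomputable def wt (lam : ℝ) (A n : ℕ) : ℝ :=
  if (A : ℝ) ≤ lam * n then (A : ℝ) / (lam * n) else 0

/-- the functionals of layer `l` from those of layer `l + 1` -/
noncomputable def psiN (g : LG P k b a) (lam : ℝ) (Bad : Finset (S × P)) (l : ℕ)
    (ψ : ℕ → (S × P) → (S × P) → ℝ) : ℕ → (S × P) → (S × P) → ℝ :=
  fun q j i => if q = l then (if i = j then 1 else 0)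
    else if l < q then wt lam (a (l + 1)) (Gs g Bad j).card * ∑ u ∈ Gs g Bad j, ψ q u i else 0

/-- the vertices of layer `l` with too few children outside `Bad` -/
noncomputable def Few (g : LG P k b a) (t : S → ℝ) (lam : ℝ) (Bad : Finset (S × P)) (l : ℕ) : Finset (S × P) :=
  (Al g t l).filter fun j => ¬ ((a (l + 1) : ℝ) ≤ lam * (Gs g Bad j).card)

open Classical in
/-- the captured vertices of layer `l`, for the functional number `q` -/
noncomputable def Cap (g : LG P k b a) (t : S → ℝ) (E : Matrix (S × P) (S × P) ℂ) (ε : ℝ)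
    (ψ : ℕ → (S × P) → (S × P) → ℝ) (l q : ℕ) : Finset (S × P) :=
  (Al g t l).filter fun j => ∃ f : S × P → ℂ, E.mulVec f = f ∧ n1 f ≤ 1 ∧ ε ≤ ‖pr (ψ q j) f‖

/-- support and size of the functionals -/
def P1 (g : LG P k b a) (t : S → ℝ) (l : ℕ) (ψ : ℕ → (S × P) → (S × P) → ℝ) : Prop :=
  ∀ j ∈ Al g t l, ∀ q i, 0 ≤ ψ q j i ∧ ψ q j i ≤ 1 ∧
    (ψ q j i ≠ 0 → l ≤ q ∧ q ≤ k ∧ i.1 = j.1 ∧ i.2 ∈ gen g.ch j.2 (q - l))

/-- the first functional -/
def P2 (g : LG P k b a) (t : S → ℝ) (l : ℕ) (ψ : ℕ → (S × P) → (S × P) → ℝ) : Prop :=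
  ∀ j ∈ Al g t l, ∀ i, ψ l j i = if i = j then 1 else 0

/-- the telescoping identity -/
def P3 (g : LG P k b a) (t : S → ℝ) (lam : ℝ) (Bad : Finset (S × P)) (l : ℕ)
    (ψ : ℕ → (S × P) → (S × P) → ℝ) : Prop :=
  ∀ j ∈ Al g t l, j ∉ Bad → ∀ q, l ≤ q → q < k → ∀ u ∈ gen g.ch j.2 (q - l),
    lam * ∑ c ∈ g.ch u, ψ (q + 1) j (j.1, c) = a (q + 1) * ψ q j (j.1, u)

/-- the functionals nearly vanish on the range of `E` -/
def P4 (g : LG P k b a) (t : S → ℝ) (E : Matrix (S × P) (S × P) ℂ) (ε : ℝ) (Bad : Finset (S × P)) (l : ℕ)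
    (ψ : ℕ → (S × P) → (S × P) → ℝ) : Prop :=
  ∀ j ∈ Al g t l, j ∉ Bad → ∀ q, l ≤ q → q ≤ k → ∀ f : S × P → ℂ, E.mulVec f = f →
    ‖pr (ψ q j) f‖ ≤ ε * n1 f

/-- the decomposition of the vector of the values of the functionals -/
def P5 (g : LG P k b a) (t : S → ℝ) (E : Matrix (S × P) (S × P) ℂ) (κ z : ℝ) (l : ℕ)
    (ψ : ℕ → (S × P) → (S × P) → ℝ) : Prop :=
  ∀ f : S × P → ℂ, E.mulVec f = f → n1 f ≤ 1 → ∀ q, l ≤ q → q ≤ k → ∃ y1 y2 : S × P → ℂ,
    (∀ j ∈ Al g t l, pr (ψ q j) f = y1 j + y2 j) ∧ ∑ j ∈ Al g t l, ‖y1 j‖ ≤ κ ∧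
      ∑ j ∈ Al g t l, ‖y2 j‖ ^ 2 ≤ z ^ 2

/-- the inductive statement -/
def Inv (g : LG P k b a) (t : S → ℝ) (lam : ℝ) (E : Matrix (S × P) (S × P) ℂ) (ε κ z β : ℝ) (l : ℕ) : Prop :=
  ∃ (Bad : Finset (S × P)) (ψ : ℕ → (S × P) → (S × P) → ℝ), Bad ⊆ Al g t l ∧ P1 g t l ψ ∧ P2 g t l ψ ∧
    P3 g t lam Bad l ψ ∧ P4 g t E ε Bad l ψ ∧ P5 g t E κ z l ψ ∧ (Bad.card : ℝ) ≤ β * (Al g t l).card

end

end Pool.Agent.Helper63.XR
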